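import Mathlib

/-!
# Primorial intervals
-/

set_option autoImplicit false

namespace Pool.Agent.Work.MP_484fb8_nt

/-- The primorial `#(n) = p_1 p_2 ⋯ p_n`, the product of the first `n` primes (`#(0) = 1`). -/
noncomputable def prml (n : ℕ) : ℕ := ∏ i ∈ Finset.range n, Nat.nth Nat.Prime i

/-- The `n`-primorial interval `[#(n-1) + 1, #(n) + 1]` (for `n ≥ 1`). -/
noncomputable def primorialInterval (n : ℕ) : Finset ℕ :=
  Finset.Icc (prml (n - 1) + 1) (prml n + 1)

/-- The primes in the `n`-primorial interval. -/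
noncomputable def primesIn (n : ℕ) : Finset ℕ := {p ∈ primorialInterval n | p.Prime}

/-- The even integers in the `n`-primorial interval. -/
noncomputable def evensIn (n : ℕ) : Finset ℕ := {m ∈ primorialInterval n | Even m}

/-- The number of pairs `(p, q)` with `p ∈ 𝒫_n`, `q ∈ 𝒫_n ∪ 𝒫_{n+1}` and `p + q = m`. -/
noncomputable def primorialReps (n m : ℕ) : ℕ :=
  (Finset.filter (fun z : ℕ × ℕ => z.1 + z.2 = m)
    (primesIn n ×ˢ (primesIn n ∪ primesIn (n + 1)))).card

end Pool.Agent.Work.MP_484fb8_nt
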