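import Mathlib
import Pool.Agent.Work.MP_484fb8_nt.Defs

/-!
# Chebyshev bounds and facts on primorials
-/

set_option autoImplicit false

open Finset Nat

namespace Pool.Agent.Work.MP_484fb8_nt

lemma pi_lower (N : ℕ) (hN : 200 ≤ N) : (N : ℝ) / (2 * Real.log N) ≤ Nat.primeCounting N := by
  have h := Chebyshev.pi_ge N
  have hN' : (200 : ℝ) ≤ N := by exact_mod_cast hN
  have hlog : 0 < Real.log N := Real.log_pos (by linarith)
  refine le_trans ?_ h
  rw [div_le_div_iff₀ (by positivity) hlog]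
  have h1 : Real.log (N + 1) ≤ 2 * Real.sqrt (N + 1) - 2 := by
    have h2 : Real.log (Real.sqrt (N + 1)) ≤ Real.sqrt (N + 1) - 1 :=
      Real.log_le_sub_one_of_pos (Real.sqrt_pos.mpr (by linarith))
    rw [Real.log_sqrt (by linarith)] at h2
    linarith
  have h2 : Real.sqrt (N + 1) ≤ 0.09 * N + 1 := by
    rw [Real.sqrt_le_left (by positivity)]
    nlinarith
  have h3 := Real.log_two_gt_d9
  have h4 : (N : ℝ) / 2 ≤ N * Real.log 2 - Real.log (N + 1) := by nlinarith
  nlinarith

lemma log_le_two_sqrt (x : ℝ) (hx : 0 < x) : Real.log x ≤ 2 * Real.sqrt x := by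
  have h2 : Real.log (Real.sqrt x) ≤ Real.sqrt x - 1 :=
    Real.log_le_sub_one_of_pos (Real.sqrt_pos.mpr hx)
  rw [Real.log_sqrt hx.le] at h2
  linarith

lemma pi_upper (N : ℕ) (hN : 2 ≤ N) : (Nat.primeCounting N : ℝ) ≤ 5 * (N / Real.log N) := by
  have hN' : (2 : ℝ) ≤ N := by exact_mod_cast hN
  have h := Chebyshev.pi_le_log4_mul_div (x := (N : ℝ)) (by linarith)
  rw [Nat.floor_natCast] at h
  have hlog : 0 < Real.log N := Real.log_pos (by linarith)
  rw [Real.log_sqrt (by linarith)] at h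
  have h4 : Real.log 4 ≤ 1.3863 := by
    have : Real.log 4 = 2 * Real.log 2 := by
      rw [show (4 : ℝ) = 2 ^ 2 by norm_num, Real.log_pow]; norm_num
    have := Real.log_two_lt_d9
    linarith
  have h5 : Real.log 4 * N / (Real.log N / 2) ≤ 2.7726 * (N / Real.log N) := by
    have : Real.log 4 * N / (Real.log N / 2) = 2 * Real.log 4 * (N / Real.log N) := by
      field_simp
    rw [this]
    apply mul_le_mul_of_nonneg_right (by linarith) (by positivity)
  have h6 : Real.sqrt N ≤ 2 * (N / Real.log N) := by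
    rw [← mul_div_assoc, le_div_iff₀ hlog]
    have := log_le_two_sqrt N (by linarith)
    have hs : Real.sqrt N * Real.sqrt N = N := Real.mul_self_sqrt (by linarith)
    have hs0 : 0 ≤ Real.sqrt N := Real.sqrt_nonneg _
    nlinarith
  have h7 : 0 ≤ (N : ℝ) / Real.log N := by positivity
  linarith

lemma prml_succ (n : ℕ) : prml (n + 1) = prml n * Nat.nth Nat.Prime n := by
  unfold prml
  rw [prod_range_succ]

lemma prml_zero : prml 0 = 1 := by simp [prml]

lemma nth_prime_ge (n : ℕ) : n + 2 ≤ Nat.nth Nat.Prime n := Nat.add_two_le_nth_prime n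

lemma prml_pos (n : ℕ) : 0 < prml n := by
  unfold prml
  apply prod_pos
  intro i _
  exact (Nat.prime_nth_prime i).pos

lemma le_prml (n : ℕ) : n + 1 ≤ prml n := by
  induction n with
  | zero => simp [prml_zero]
  | succ n ih =>
    rw [prml_succ]
    have := nth_prime_ge n
    nlinarith

/-- Euclid: `p_{n+1} ≤ #(n) + 1`. -/
lemma nth_prime_le (n : ℕ) : Nat.nth Nat.Prime n ≤ prml n + 1 := by
  have hne : prml n + 1 ≠ 1 := by
    have := prml_pos n
    omega
  set q := Nat.minFac (prml n + 1) with hq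
  have hqp : q.Prime := Nat.minFac_prime hne
  have hqd : q ∣ prml n + 1 := Nat.minFac_dvd _
  have hcount : n ≤ Nat.count Nat.Prime q := by
    by_contra hlt
    push Not at hlt
    have h1 : Nat.nth Nat.Prime (Nat.count Nat.Prime q) = q := Nat.nth_count hqp
    have h2 : q ∣ prml n := by
      unfold prml
      rw [← h1]
      exact Finset.dvd_prod_of_mem _ (mem_range.mpr hlt)
    have h3 : q ∣ 1 := (Nat.dvd_add_iff_right h2).mpr hqd
    exact hqp.one_lt.ne' (Nat.dvd_one.mp h3)
  have h1 : Nat.nth Nat.Prime (Nat.count Nat.Prime q) = q := Nat.nth_count hqp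
  calc Nat.nth Nat.Prime n ≤ Nat.nth Nat.Prime (Nat.count Nat.Prime q) :=
        (Nat.nth_monotone Nat.infinite_setOfPred_prime) hcount
    _ = q := h1
    _ ≤ prml n + 1 := Nat.le_of_dvd (Nat.succ_pos _) hqd

/-- `log #(n+1) ≤ 3 log #(n)` for `n ≥ 1`. -/
lemma log_prml_succ (n : ℕ) (hn : 1 ≤ n) :
    Real.log (prml (n + 1)) ≤ 3 * Real.log (prml n) := by
  have h2 : 2 ≤ prml n := by have := le_prml n; omega
  have h1 : prml (n + 1) ≤ (prml n) ^ 3 := by
    rw [prml_succ]
    have := nth_prime_le n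
    calc prml n * Nat.nth Nat.Prime n ≤ prml n * (prml n + 1) := Nat.mul_le_mul_left _ this
      _ ≤ prml n ^ 3 := by nlinarith [Nat.mul_le_mul h2 h2]
  have h3 : (0 : ℝ) < prml (n + 1) := by exact_mod_cast prml_pos (n + 1)
  calc Real.log (prml (n + 1)) ≤ Real.log ((prml n : ℝ) ^ 3) := by
        apply Real.log_le_log h3
        exact_mod_cast h1
    _ = 3 * Real.log (prml n) := by rw [Real.log_pow]; norm_num

end Pool.Agent.Work.MP_484fb8_nt
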