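import Pool.Agent.Work.Circle.AlmostAll
import Pool.Agent.Work.MP_484fb8_nt.Cheb

/-!
Density one for the primorial intervals.
-/

set_option autoImplicit false

namespace Pool.Agent.Work.MP_484fb8_nt

open Finset ArithmeticFunction Pool.Agent.Circle

lemma nth_prime_upper (n : ℕ) : (Nat.nth Nat.Prime n : ℝ) ≤ 200 * ((n : ℝ) + 1) ^ 2 := by
  set p := Nat.nth Nat.Prime n with hp
  rcases Nat.lt_or_ge p 200 with h | h
  · have h1 : (p : ℝ) ≤ 200 := by exact_mod_cast h.le
    have h2 : (1 : ℝ) ≤ ((n : ℝ) + 1) ^ 2 := one_le_pow₀ (by linarith [Nat.cast_nonneg (α := ℝ) n])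
    linarith
  · have h1 := pi_lower p h
    have h2 : Nat.primeCounting p = n + 1 := by
      rw [hp, Nat.primeCounting]
      have h3 := Nat.primeCounting'_nth_eq n
      rw [Nat.primeCounting'] at h3 ⊢
      rw [Nat.count_succ, h3, if_pos (Nat.prime_nth_prime n)]
    rw [h2] at h1
    have hp0 : (0 : ℝ) < p := by exact_mod_cast (by omega : 0 < p)
    have hlog : 0 < Real.log p := Real.log_pos (by exact_mod_cast (by omega : 1 < p))
    have h3 := log_le_two_sqrt p hp0
    have hs : 0 < √(p : ℝ) := Real.sqrt_pos.mpr hp0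
    have hss : √(p : ℝ) * √p = p := Real.mul_self_sqrt hp0.le
    rw [div_le_iff₀ (by positivity)] at h1
    push_cast at h1
    have h4 : √(p : ℝ) ≤ 4 * ((n : ℝ) + 1) := by
      have h5 : √(p : ℝ) * √p ≤ (4 * ((n : ℝ) + 1)) * √p := by
        rw [hss]
        calc (p : ℝ) ≤ ((n : ℝ) + 1) * (2 * Real.log p) := h1
          _ ≤ ((n : ℝ) + 1) * (2 * (2 * √p)) := by gcongr
          _ = _ := by ring
      exact le_of_mul_le_mul_right h5 hs
    calc (p : ℝ) = √(p : ℝ) * √p := hss.symm
      _ ≤ (4 * ((n : ℝ) + 1)) * (4 * ((n : ℝ) + 1)) := by gcongr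
      _ = 16 * ((n : ℝ) + 1) ^ 2 := by ring
      _ ≤ 200 * ((n : ℝ) + 1) ^ 2 := by
          have : 0 ≤ ((n : ℝ) + 1) ^ 2 := by positivity
          linarith

lemma two_pow_le_prml (n : ℕ) : 2 ^ n ≤ prml n := by
  induction n with
  | zero => simp [prml_zero]
  | succ n ih =>
    rw [prml_succ, pow_succ]
    exact Nat.mul_le_mul ih (by have := nth_prime_ge n; omega)

lemma n_le_log (n : ℕ) (hn : 1 ≤ n) : (n : ℝ) + 1 ≤ 4 * Real.log (prml n) := by
  have h1 : (n : ℝ) * Real.log 2 ≤ Real.log (prml n) := by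
    rw [← Real.log_pow]
    apply Real.log_le_log (by positivity)
    exact_mod_cast two_pow_le_prml n
  have h2 := Real.log_two_gt_d9
  have h3 : (1 : ℝ) ≤ n := by exact_mod_cast hn
  nlinarith

lemma two_dvd_prml (n : ℕ) (hn : 1 ≤ n) : 2 ∣ prml n := by
  unfold prml
  have h := dvd_prod_of_mem (fun i => Nat.nth Nat.Prime i) (mem_range.mpr hn : 0 ∈ range n)
  rwa [Nat.nth_prime_zero_eq_two] at h

lemma prml_mono {m n : ℕ} (h : m ≤ n) : prml m ≤ prml n := by
  induction n, h using Nat.le_induction with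
  | base => exact le_rfl
  | succ n _ ih =>
    rw [prml_succ]
    have := nth_prime_ge n
    exact ih.trans (Nat.le_mul_of_pos_right _ (by omega))

/-- The number of even integers in the interval. -/
lemma card_evens_ge (n : ℕ) (hn : 1 ≤ n) :
    ((prml (n + 1) + 1 : ℕ) : ℝ) ≤ 6 * ((evensIn (n + 1)).card : ℝ) := by
  obtain ⟨a, ha⟩ := two_dvd_prml n hn
  obtain ⟨b, hb⟩ := two_dvd_prml (n + 1) (by omega)
  have h3 : 3 * prml n ≤ prml (n + 1) := by
    rw [prml_succ, mul_comm 3]
    exact Nat.mul_le_mul_left _ (by have := nth_prime_ge n; omega)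
  have hpos := prml_pos n
  have h1 : (Ioc a b).image (fun k => 2 * k) ⊆ evensIn (n + 1) := by
    intro m hm
    rw [mem_image] at hm
    obtain ⟨k, hk, rfl⟩ := hm
    rw [mem_Ioc] at hk
    unfold evensIn primorialInterval
    rw [mem_filter, mem_Icc, Nat.add_sub_cancel]
    refine ⟨⟨by omega, by omega⟩, even_two_mul k⟩
  have h2 := card_le_card h1
  rw [card_image_of_injective _ (fun x y h => Nat.eq_of_mul_eq_mul_left two_pos h), Nat.card_Ioc] at h2
  have h4 : prml (n + 1) + 1 ≤ 6 * (evensIn (n + 1)).card := by omega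
  exact_mod_cast h4

lemma pairs_le_reps (n : ℕ) (hn : 1 ≤ n) (m : ℕ) (hm : m ∈ evensIn (n + 1)) :
    ((Ioc (prml (n - 1)) (prml n / 2)).filter (fun p => p.Prime ∧ (m - p).Prime)).card
      ≤ primorialReps n m := by
  unfold evensIn primorialInterval at hm
  rw [mem_filter, mem_Icc, Nat.add_sub_cancel] at hm
  obtain ⟨⟨hm1, hm2⟩, _⟩ := hm
  have hK : 2 * prml (n - 1) ≤ prml n := by
    obtain ⟨k, rfl⟩ := Nat.exists_eq_add_of_le' hn
    rw [Nat.add_sub_cancel, prml_succ, mul_comm 2]
    exact Nat.mul_le_mul_left _ (by have := nth_prime_ge k; omega)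
  unfold primorialReps
  have h1 : ((Ioc (prml (n - 1)) (prml n / 2)).filter (fun p => p.Prime ∧ (m - p).Prime)).image
      (fun p => (p, m - p)) ⊆ Finset.filter (fun z : ℕ × ℕ => z.1 + z.2 = m)
        (primesIn n ×ˢ (primesIn n ∪ primesIn (n + 1))) := by
    intro z hz
    rw [mem_image] at hz
    obtain ⟨p, hp, rfl⟩ := hz
    rw [mem_filter, mem_Ioc] at hp
    obtain ⟨⟨hp1, hp2⟩, hpp, hpq⟩ := hp
    rw [mem_filter, mem_product]
    refine ⟨⟨?_, ?_⟩, ?_⟩
    · show p ∈ primesIn n
      unfold primesIn primorialInterval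
      rw [mem_filter, mem_Icc]
      exact ⟨⟨by omega, by omega⟩, hpp⟩
    · show m - p ∈ primesIn n ∪ primesIn (n + 1)
      unfold primesIn primorialInterval
      rw [mem_union, mem_filter, mem_filter, mem_Icc, mem_Icc, Nat.add_sub_cancel]
      rcases Nat.lt_or_ge (prml n + 1) (m - p) with h | h
      · right
        exact ⟨⟨by omega, by omega⟩, hpq⟩
      · left
        exact ⟨⟨by omega, by omega⟩, hpq⟩
    · show p + (m - p) = m
      omega
  have h2 := card_le_card h1
  rwa [card_image_of_injective _ (fun x y h => (Prod.ext_iff.mp h).1)] at h2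

theorem density_one (hs : SingLower) : ∃ c : ℝ, 0 < c ∧ ∀ A : ℕ, ∃ C : ℝ, ∀ n : ℕ, 1 ≤ n →
    (((evensIn (n + 1)).filter (fun m => (primorialReps n m : ℝ)
      < c * (prml n / (Real.log (prml n)) ^ 2))).card : ℝ)
      ≤ C * ((evensIn (n + 1)).card / (Real.log (prml (n + 1))) ^ A) := by
  refine ⟨1 / 512, by norm_num, ?_⟩
  intro A
  obtain ⟨C1, hC1, L1, haa⟩ := almost_all hs A 3
  obtain ⟨L2, hL2⟩ := log_pow_eventually 5 (1 / 64) (by norm_num)
  set L0 : ℝ := max (max L1 L2) (max (Real.exp 12800) (prml 3 + 2)) with hL0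
  have hL0pos : 1 ≤ L0 := by
    refine le_trans ?_ (le_max_right _ _)
    refine le_trans ?_ (le_max_right _ _)
    have : (0 : ℝ) ≤ prml 3 := Nat.cast_nonneg _
    linarith
  have hlogL0 : 0 ≤ Real.log L0 := Real.log_nonneg hL0pos
  refine ⟨6 * C1 + (Real.log L0) ^ A, ?_⟩
  intro n hn
  set M := prml n with hM
  set M' := prml (n + 1) with hM'
  have hM2 : 2 ≤ M := by have := le_prml n; omega
  have hMM' : 3 * M ≤ M' := by
    rw [hM', hM, prml_succ, mul_comm 3]
    exact Nat.mul_le_mul_left _ (by have := nth_prime_ge n; omega)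
  have hM'r : (6 : ℝ) ≤ M' := by exact_mod_cast (by omega : 6 ≤ M')
  have hMr : (2 : ℝ) ≤ M := by exact_mod_cast hM2
  have hlogM' : 0 < Real.log M' := Real.log_pos (by linarith)
  have hlogM : 0 < Real.log M := Real.log_pos (by linarith)
  have hcard0 : (0 : ℝ) ≤ (evensIn (n + 1)).card := Nat.cast_nonneg _
  have hCpos : 0 ≤ 6 * C1 := by positivity
  have hlA : 0 ≤ (Real.log L0) ^ A := by positivity
  set L := M' + 1 with hL
  by_cases hLL0 : (L : ℝ) < L0
  · -- small case
    have h1 : Real.log M' ≤ Real.log L0 := by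
      apply Real.log_le_log (by linarith)
      rw [hL] at hLL0
      push_cast at hLL0
      linarith
    have h2 : (((evensIn (n + 1)).filter (fun m => (primorialReps n m : ℝ)
        < 1 / 512 * (M / (Real.log M) ^ 2))).card : ℝ) ≤ (evensIn (n + 1)).card := by
      exact_mod_cast card_filter_le _ _
    refine h2.trans ?_
    rw [← mul_div_assoc, le_div_iff₀ (by positivity), mul_comm]
    refine mul_le_mul_of_nonneg_right ?_ hcard0
    have : (Real.log M') ^ A ≤ (Real.log L0) ^ A := by gcongr
    linarith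
  · push Not at hLL0
    have hLr1 : L1 ≤ L := (le_max_left L1 L2).trans ((le_max_left _ _).trans hLL0)
    have hLr2 : L2 ≤ L := (le_max_right L1 L2).trans ((le_max_left _ _).trans hLL0)
    have hLe : Real.exp 12800 ≤ L := (le_max_left _ _).trans ((le_max_right _ _).trans hLL0)
    have hLp : (prml 3 : ℝ) + 2 ≤ L := (le_max_right _ _).trans ((le_max_right _ _).trans hLL0)
    have hn3 : 3 ≤ n := by
      by_contra h
      have h1 : prml (n + 1) ≤ prml 3 := prml_mono (by omega)
      have h2 : (prml 3 : ℝ) + 2 ≤ (prml (n + 1) : ℝ) + 1 := by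
        have := hLp
        rw [hL] at this
        push_cast at this
        linarith
      have h3 : (prml (n + 1) : ℝ) ≤ prml 3 := by exact_mod_cast h1
      linarith
    set K := prml (n - 1) with hK
    set N := M / 2 with hN
    have hdvd : 2 ∣ M := two_dvd_prml n hn
    have hN2 : 2 * N = M := by omega
    have hNr : 2 * (N : ℝ) = M := by exact_mod_cast hN2
    have hKN : 2 * K ≤ N := by
      have h1 : 4 * K ≤ M := by
        obtain ⟨k, rfl⟩ := Nat.exists_eq_add_of_le' hn
        rw [hM, hK, Nat.add_sub_cancel, prml_succ, mul_comm 4]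
        exact Nat.mul_le_mul_left _ (by have := nth_prime_ge k; omega)
      omega
    have hNL : N ≤ L := by omega
    have hLr : (L : ℝ) = M' + 1 := by rw [hL]; push_cast; ring
    have hL7 : (7 : ℝ) ≤ L := by rw [hLr]; linarith
    set x := Real.log L with hx
    have hx12800 : 12800 ≤ x := by
      rw [hx, Real.le_log_iff_exp_le (by linarith)]
      exact hLe
    have hMx : Real.log M ≤ x := by
      apply Real.log_le_log (by linarith)
      rw [hLr]
      have : 3 * (M : ℝ) ≤ M' := by exact_mod_cast hMM'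
      linarith
    have hM'x : Real.log M' ≤ x := by
      apply Real.log_le_log (by linarith)
      rw [hLr]
      linarith
    -- `L ≤ N x^3`
    have hLN : (L : ℝ) ≤ N * x ^ 3 := by
      have h1 := nth_prime_upper n
      have h2 := n_le_log n hn
      rw [← hM] at h2
      have h3 : ((n : ℝ) + 1) ^ 2 ≤ (4 * Real.log M) ^ 2 := by gcongr
      have h4 : (Nat.nth Nat.Prime n : ℝ) ≤ 3200 * x ^ 2 := by
        calc (Nat.nth Nat.Prime n : ℝ) ≤ 200 * ((n : ℝ) + 1) ^ 2 := h1
          _ ≤ 200 * (4 * Real.log M) ^ 2 := by gcongr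
          _ ≤ 200 * (4 * x) ^ 2 := by gcongr
          _ = _ := by ring
      have h5 : (M' : ℝ) = M * Nat.nth Nat.Prime n := by
        rw [hM', prml_succ]
        push_cast
        ring
      calc (L : ℝ) ≤ 2 * M' := by rw [hLr]; linarith
        _ = 2 * (M * Nat.nth Nat.Prime n) := by rw [h5]
        _ ≤ 2 * (M * (3200 * x ^ 2)) := by gcongr
        _ = N * (12800 * x ^ 2) := by rw [← hNr]; ring
        _ ≤ N * (x * x ^ 2) := by gcongr
        _ = _ := by ring
    have hbad := haa N K L hLr1 hKN hNL hLN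
    -- every non-bad even `m` has many representations
    have hsub : (evensIn (n + 1)).filter (fun m => (primorialReps n m : ℝ)
        < 1 / 512 * (M / (Real.log M) ^ 2))
        ⊆ (Ioc N L).filter (fun m => Even m ∧ ∑ a ∈ Ioc K N, Λ a * Λ (m - a) < N / 8) := by
      intro m hm
      rw [mem_filter] at hm
      obtain ⟨hmE, hlt⟩ := hm
      have hmE' := hmE
      unfold evensIn primorialInterval at hmE'
      rw [mem_filter, mem_Icc, Nat.add_sub_cancel] at hmE'
      obtain ⟨⟨hm1, hm2⟩, hev⟩ := hmE'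
      rw [mem_filter, mem_Ioc]
      refine ⟨⟨by omega, by omega⟩, hev, ?_⟩
      by_contra hge
      push Not at hge
      have h1 := prime_pairs N K L m (by omega) (by omega) (by omega)
      have h2 := pairs_le_reps n hn m hmE
      rw [← hK, ← hM, ← hN] at h2
      have h2r : (((Ioc K N).filter (fun p => p.Prime ∧ (m - p).Prime)).card : ℝ)
          ≤ primorialReps n m := by exact_mod_cast h2
      have h3 : 64 * (√L * x ^ 2) ≤ N := by
        have h4 := hL2 L hLr2
        rw [← hx] at h4
        have h5 : 64 * (√L * x ^ 2) * x ^ 3 ≤ N * x ^ 3 := by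
          calc 64 * (√L * x ^ 2) * x ^ 3 = 64 * √L * x ^ 5 := by ring
            _ ≤ 64 * √L * (1 / 64 * √L) := by gcongr
            _ = √L * √L := by ring
            _ = L := Real.mul_self_sqrt (by linarith)
            _ ≤ N * x ^ 3 := hLN
        exact le_of_mul_le_mul_right h5 (by positivity)
      have h6 : (N : ℝ) / 16 ≤ primorialReps n m * x ^ 2 := by
        have h7 : (((Ioc K N).filter (fun p => p.Prime ∧ (m - p).Prime)).card : ℝ) * x ^ 2
            ≤ primorialReps n m * x ^ 2 := by gcongr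
        rw [← hx] at h1
        linarith
      have h8 : x ≤ 4 * Real.log M := by
        have h9 := log_prml_succ n hn
        rw [← hM, ← hM'] at h9
        have h10 : x ≤ Real.log 2 + Real.log M' := by
          rw [hx, ← Real.log_mul (by norm_num) (by linarith)]
          apply Real.log_le_log (by linarith)
          rw [hLr]
          linarith
        have h11 : Real.log 2 ≤ Real.log M := Real.log_le_log (by norm_num) hMr
        linarith
      have h12 : x ^ 2 ≤ (4 * Real.log M) ^ 2 := by gcongr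
      have h13 : (M : ℝ) / 32 ≤ primorialReps n m * (16 * (Real.log M) ^ 2) := by
        calc (M : ℝ) / 32 = N / 16 := by rw [← hNr]; ring
          _ ≤ primorialReps n m * x ^ 2 := h6
          _ ≤ primorialReps n m * (4 * Real.log M) ^ 2 := by gcongr
          _ = _ := by ring
      have h14 : 1 / 512 * (M / (Real.log M) ^ 2) ≤ primorialReps n m := by
        rw [← mul_div_assoc, div_le_iff₀ (by positivity)]
        linarith
      linarith
    have hcard := card_evens_ge n hn
    rw [← hM', ← hL] at hcard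
    calc (((evensIn (n + 1)).filter (fun m => (primorialReps n m : ℝ)
        < 1 / 512 * (M / (Real.log M) ^ 2))).card : ℝ)
        ≤ (((Ioc N L).filter (fun m => Even m ∧ ∑ a ∈ Ioc K N, Λ a * Λ (m - a) < N / 8)).card : ℝ) := by
          exact_mod_cast card_le_card hsub
      _ ≤ C1 * (L / x ^ A) := hbad
      _ ≤ C1 * ((6 * (evensIn (n + 1)).card) / (Real.log M') ^ A) := by gcongr
      _ = 6 * C1 * ((evensIn (n + 1)).card / (Real.log M') ^ A) := by ring
      _ ≤ _ := by
          refine mul_le_mul_of_nonneg_right ?_ (by positivity)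
          linarith

end Pool.Agent.Work.MP_484fb8_nt
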