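import Mathlib

/-!
# Counting `q ≤ N` with `d ∣ q (q + h)` for squarefree `d`
-/

set_option autoImplicit false

open Finset Nat

namespace Pool.Agent.Work.MP_484fb8_nt

/-- Number of `q ∈ [1,N]` in a residue class modulo `r`. -/
lemma card_modEq (N r v : ℕ) (hr : 0 < r) :
    |((#{x ∈ Ioc 0 N | x ≡ v [MOD r]} : ℕ) : ℝ) - N / r| ≤ 1 := by
  have h := Nat.Ioc_filter_modEq_card 0 N hr v
  have hrr : (0 : ℚ) < r := by exact_mod_cast hr
  have hle : (⌊((0 : ℕ) - v : ℚ) / (r : ℚ)⌋ : ℤ) ≤ ⌊((N : ℕ) - v : ℚ) / (r : ℚ)⌋ := by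
    apply Int.floor_le_floor
    apply div_le_div_of_nonneg_right _ hrr.le
    have : (0 : ℚ) ≤ N := by positivity
    push_cast
    linarith
  have hmax : max (⌊((N : ℕ) - v : ℚ) / (r : ℚ)⌋ - ⌊((0 : ℕ) - v : ℚ) / (r : ℚ)⌋) 0
      = ⌊((N : ℕ) - v : ℚ) / (r : ℚ)⌋ - ⌊((0 : ℕ) - v : ℚ) / (r : ℚ)⌋ := by
    apply max_eq_left
    linarith
  have h' : ((#{x ∈ Ioc 0 N | x ≡ v [MOD r]} : ℕ) : ℤ)
      = ⌊((N : ℕ) - v : ℚ) / (r : ℚ)⌋ - ⌊((0 : ℕ) - v : ℚ) / (r : ℚ)⌋ := by
    rw [h]; exact hmax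
  have hq : ((#{x ∈ Ioc 0 N | x ≡ v [MOD r]} : ℕ) : ℚ)
      = (⌊((N : ℕ) - v : ℚ) / (r : ℚ)⌋ : ℚ) - (⌊((0 : ℕ) - v : ℚ) / (r : ℚ)⌋ : ℚ) := by
    exact_mod_cast h'
  have a1 := Int.floor_le (((N : ℕ) - v : ℚ) / (r : ℚ))
  have a2 := Int.lt_floor_add_one (((N : ℕ) - v : ℚ) / (r : ℚ))
  have b1 := Int.floor_le (((0 : ℕ) - v : ℚ) / (r : ℚ))
  have b2 := Int.lt_floor_add_one (((0 : ℕ) - v : ℚ) / (r : ℚ))
  have hdiff : ((N : ℕ) - v : ℚ) / (r : ℚ) - ((0 : ℕ) - v : ℚ) / (r : ℚ) = (N : ℚ) / r := by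
    push_cast
    field_simp
    ring
  have habs : |((#{x ∈ Ioc 0 N | x ≡ v [MOD r]} : ℕ) : ℚ) - N / r| ≤ 1 := by
    rw [abs_le, hq]
    constructor <;> linarith
  have : ((|((#{x ∈ Ioc 0 N | x ≡ v [MOD r]} : ℕ) : ℚ) - N / r| : ℚ) : ℝ) ≤ ((1 : ℚ) : ℝ) := by
    exact_mod_cast habs
  simpa using this

/-- Number of solutions of two coprime congruences. -/
lemma card_two_modEq (N a b h : ℕ) (ha : 0 < a) (hb : 0 < b) (hab : a.Coprime b) :
    |((#{x ∈ Ioc 0 N | a ∣ x ∧ b ∣ x + h} : ℕ) : ℝ) - N / (a * b : ℕ)| ≤ 1 := by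
  -- pick a residue `c` with `c ≡ 0 (mod a)` and `c ≡ -h (mod b)`
  obtain ⟨c, hc1, hc2⟩ := Nat.chineseRemainder hab 0 ((b - h % b) : ℕ)
  have hset : {x ∈ Ioc 0 N | a ∣ x ∧ b ∣ x + h} = {x ∈ Ioc 0 N | x ≡ c [MOD (a * b)]} := by
    ext x
    simp only [mem_filter, and_congr_right_iff]
    intro _
    have hneg : (b - h % b) + h ≡ 0 [MOD b] := by
      have h1 : h % b ≤ b := (Nat.mod_lt h hb).le
      have h2 : h = h % b + b * (h / b) := (Nat.mod_add_div h b).symm
      have h3 : (b - h % b) + h = b + b * (h / b) := by omega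
      rw [h3, Nat.modEq_zero_iff_dvd]
      exact ⟨1 + h / b, by ring⟩
    rw [← Nat.modEq_and_modEq_iff_modEq_mul hab]
    constructor
    · rintro ⟨h1, h2⟩
      constructor
      · exact ((Nat.modEq_zero_iff_dvd).mpr h1).trans hc1.symm
      · have h3 : x + h ≡ 0 [MOD b] := (Nat.modEq_zero_iff_dvd).mpr h2
        have h4 : x + h ≡ c + h [MOD b] := h3.trans ((hc2.add_right h).trans hneg).symm
        exact Nat.ModEq.add_right_cancel' h h4
    · rintro ⟨h1, h2⟩
      constructor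
      · exact (Nat.modEq_zero_iff_dvd).mp (h1.trans hc1)
      · exact (Nat.modEq_zero_iff_dvd).mp ((h2.add_right h).trans ((hc2.add_right h).trans hneg))
  rw [hset]
  exact card_modEq N (a * b) c (Nat.mul_pos ha hb)

/-- Divisors of `d` coprime to `h`. -/
def cdiv (d h : ℕ) : Finset ℕ := {b ∈ d.divisors | b.Coprime h}

lemma card_dvd_mul (N d h : ℕ) (hd : Squarefree d) :
    (#{x ∈ Ioc 0 N | d ∣ x * (x + h)} : ℕ)
      = ∑ b ∈ cdiv d h, #{x ∈ Ioc 0 N | d / b ∣ x ∧ b ∣ x + h} := by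
  have hd0 : d ≠ 0 := hd.ne_zero
  have hmaps : ∀ x ∈ {x ∈ Ioc 0 N | d ∣ x * (x + h)}, d / Nat.gcd d x ∈ cdiv d h := by
    intro x hx
    rw [mem_filter] at hx
    obtain ⟨_, hx2⟩ := hx
    unfold cdiv
    rw [mem_filter, mem_divisors]
    have hg : Nat.gcd d x ∣ d := Nat.gcd_dvd_left d x
    have hgpos : 0 < Nat.gcd d x := Nat.gcd_pos_of_pos_left _ (Nat.pos_of_ne_zero hd0)
    refine ⟨⟨Nat.div_dvd_of_dvd hg, hd0⟩, ?_⟩
    -- b divides x + h
    obtain ⟨b, hb⟩ := hg
    have hbq : d / Nat.gcd d x = b := by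
      nth_rewrite 1 [hb]; exact Nat.mul_div_cancel_left b hgpos
    rw [hbq]
    have hcop1 : (Nat.gcd d x).Coprime b := by
      have : Squarefree (Nat.gcd d x * b) := by rw [← hb]; exact hd
      exact Nat.coprime_of_squarefree_mul this
    have hbx : b.Coprime x := by
      rw [Nat.coprime_iff_gcd_eq_one]
      by_contra hne
      obtain ⟨p, hp, hpd⟩ := Nat.exists_prime_and_dvd hne
      have hpb : p ∣ b := hpd.trans (Nat.gcd_dvd_left _ _)
      have hpx : p ∣ x := hpd.trans (Nat.gcd_dvd_right _ _)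
      have hpdd : p ∣ d := hpb.trans (by rw [hb]; exact dvd_mul_left _ _)
      have hpg : p ∣ Nat.gcd d x := Nat.dvd_gcd hpdd hpx
      have := Nat.dvd_gcd hpg hpb
      rw [hcop1] at this
      exact hp.one_lt.ne' (Nat.dvd_one.mp this)
    have hbxh : b ∣ x + h := by
      have h1 : b ∣ x * (x + h) := (Dvd.intro_left _ hb.symm).trans hx2
      exact hbx.dvd_of_dvd_mul_left h1
    rw [Nat.coprime_iff_gcd_eq_one]
    by_contra hne
    obtain ⟨p, hp, hpd⟩ := Nat.exists_prime_and_dvd hne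
    have hpb : p ∣ b := hpd.trans (Nat.gcd_dvd_left _ _)
    have hph : p ∣ h := hpd.trans (Nat.gcd_dvd_right _ _)
    have hpx : p ∣ x := (Nat.dvd_add_iff_left hph).mpr (hpb.trans hbxh)
    have := Nat.dvd_gcd hpb hpx
    rw [hbx] at this
    exact hp.one_lt.ne' (Nat.dvd_one.mp this)
  rw [Finset.card_eq_sum_card_fiberwise hmaps]
  apply sum_congr rfl
  intro b hb
  congr 1
  unfold cdiv at hb
  rw [mem_filter, mem_divisors] at hb
  obtain ⟨⟨⟨a, ha⟩, _⟩, hbh⟩ := hb
  have hb0 : b ≠ 0 := by rintro rfl; simp at ha; exact hd0 ha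
  have ha0 : a ≠ 0 := by rintro rfl; simp at ha; exact hd0 ha
  have hdb : d / b = a := by
    rw [ha]; exact Nat.mul_div_cancel_left a (Nat.pos_of_ne_zero hb0)
  have hcop : b.Coprime a := by
    rw [ha] at hd
    exact Nat.coprime_of_squarefree_mul hd
  rw [hdb]
  ext x
  simp only [mem_filter]
  constructor
  · rintro ⟨⟨hxN, hx2⟩, hx3⟩
    have hgpos : 0 < Nat.gcd d x := Nat.gcd_pos_of_pos_left _ (Nat.pos_of_ne_zero hd0)
    have hg : d = Nat.gcd d x * b := by
      rw [← hx3]; exact (Nat.mul_div_cancel' (Nat.gcd_dvd_left d x)).symm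
    have hga : Nat.gcd d x = a := by
      have : Nat.gcd d x * b = a * b := by rw [← hg, ha, mul_comm]
      exact Nat.eq_of_mul_eq_mul_right (Nat.pos_of_ne_zero hb0) this
    refine ⟨hxN, ?_, ?_⟩
    · rw [← hga]; exact Nat.gcd_dvd_right d x
    · have hbx : b.Coprime x := by
        rw [Nat.coprime_iff_gcd_eq_one]
        by_contra hne
        obtain ⟨p, hp, hpd⟩ := Nat.exists_prime_and_dvd hne
        have hpb : p ∣ b := hpd.trans (Nat.gcd_dvd_left _ _)
        have hpx : p ∣ x := hpd.trans (Nat.gcd_dvd_right _ _)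
        have hpdd : p ∣ d := hpb.trans (by rw [ha]; exact dvd_mul_right _ _)
        have hpg : p ∣ a := by rw [← hga]; exact Nat.dvd_gcd hpdd hpx
        have := Nat.dvd_gcd hpb hpg
        rw [hcop] at this
        exact hp.one_lt.ne' (Nat.dvd_one.mp this)
      have h1 : b ∣ x * (x + h) := (Dvd.intro _ ha.symm).trans hx2
      exact hbx.dvd_of_dvd_mul_left h1
  · rintro ⟨hxN, h1, h2⟩
    have hbx : b.Coprime x := by
      rw [Nat.coprime_iff_gcd_eq_one]
      by_contra hne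
      obtain ⟨p, hp, hpd⟩ := Nat.exists_prime_and_dvd hne
      have hpb : p ∣ b := hpd.trans (Nat.gcd_dvd_left _ _)
      have hpx : p ∣ x := hpd.trans (Nat.gcd_dvd_right _ _)
      have hph : p ∣ h := (Nat.dvd_add_iff_right hpx).mpr (hpb.trans h2)
      have := Nat.dvd_gcd hpb hph
      rw [hbh] at this
      exact hp.one_lt.ne' (Nat.dvd_one.mp this)
    have hga : Nat.gcd d x = a := by
      rw [ha, Nat.Coprime.gcd_mul_left_cancel a hbx, Nat.gcd_eq_left h1]
    refine ⟨⟨hxN, ?_⟩, ?_⟩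
    · rw [ha, mul_comm x]
      exact mul_dvd_mul h2 h1
    · rw [hga, ha]
      exact Nat.mul_div_cancel b (Nat.pos_of_ne_zero ha0)

lemma card_dvd_mul_approx (N d h : ℕ) (hd : Squarefree d) :
    |((#{x ∈ Ioc 0 N | d ∣ x * (x + h)} : ℕ) : ℝ) - (#(cdiv d h) : ℝ) / d * N| ≤ #(cdiv d h) := by
  rw [card_dvd_mul N d h hd]
  push_cast
  have h1 : (#(cdiv d h) : ℝ) / d * N = ∑ b ∈ cdiv d h, (N : ℝ) / d := by
    rw [sum_const, nsmul_eq_mul]; ring
  rw [h1, ← sum_sub_distrib]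
  refine (abs_sum_le_sum_abs _ _).trans ?_
  have h2 : (#(cdiv d h) : ℝ) = ∑ b ∈ cdiv d h, (1 : ℝ) := by simp
  rw [h2]
  apply sum_le_sum
  intro b hb
  unfold cdiv at hb
  rw [mem_filter, mem_divisors] at hb
  obtain ⟨⟨⟨a, ha⟩, hd0⟩, hbh⟩ := hb
  have hb0 : 0 < b := Nat.pos_of_ne_zero (by rintro rfl; simp at ha; exact hd0 ha)
  have ha0 : 0 < a := Nat.pos_of_ne_zero (by rintro rfl; simp at ha; exact hd0 ha)
  have hdb : d / b = a := by
    rw [ha]; exact Nat.mul_div_cancel_left a hb0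
  have hcop : a.Coprime b := by
    rw [ha] at hd
    exact (Nat.coprime_of_squarefree_mul hd).symm
  rw [hdb]
  have := card_two_modEq N a b h ha0 hb0 hcop
  have e : (a * b : ℕ) = d := by rw [ha, mul_comm]
  rw [e] at this
  exact this

/-- The number of divisors of squarefree `d` coprime to `h` is multiplicative over primes. -/
lemma card_cdiv (d h : ℕ) (hd : Squarefree d) :
    (#(cdiv d h) : ℝ) = ∏ p ∈ d.primeFactors, (if p ∣ h then (1 : ℝ) else 2) := by
  classical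
  -- divisors of `d` coprime to `h` correspond to subsets of the prime factors not dividing `h`
  have h1 : #(cdiv d h) = 2 ^ #{p ∈ d.primeFactors | ¬ p ∣ h} := by
    rw [← card_powerset]
    symm
    apply card_bij (fun (S : Finset ℕ) _ => ∏ p ∈ S, p)
    · intro S hS
      rw [mem_powerset] at hS
      unfold cdiv
      rw [mem_filter, mem_divisors]
      refine ⟨⟨?_, hd.ne_zero⟩, ?_⟩
      · have hS' : S ⊆ d.primeFactors := hS.trans (filter_subset _ _)
        have := Finset.prod_dvd_prod_of_subset S d.primeFactors (fun p => p) hS'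
        rwa [Nat.prod_primeFactors_of_squarefree hd] at this
      · apply Nat.Coprime.prod_left
        intro p hp
        have := hS hp
        rw [mem_filter] at this
        exact (Nat.prime_of_mem_primeFactors this.1).coprime_iff_not_dvd.mpr this.2
    · intro S hS T hT hST
      rw [mem_powerset] at hS hT
      have key : ∀ S : Finset ℕ, S ⊆ {p ∈ d.primeFactors | ¬ p ∣ h} →
          (∏ p ∈ S, p).primeFactors = S := by
        intro S hS
        apply Nat.primeFactors_prod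
        intro p hp
        have := hS hp
        rw [mem_filter] at this
        exact Nat.prime_of_mem_primeFactors this.1
      rw [← key S hS, ← key T hT, hST]
    · intro b hb
      unfold cdiv at hb
      rw [mem_filter, mem_divisors] at hb
      refine ⟨b.primeFactors, ?_, ?_⟩
      · rw [mem_powerset]
        intro p hp
        rw [mem_filter]
        refine ⟨Nat.primeFactors_mono hb.1.1 hb.1.2 hp, ?_⟩
        intro hph
        have := Nat.dvd_gcd (Nat.dvd_of_mem_primeFactors hp) hph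
        rw [hb.2] at this
        exact (Nat.prime_of_mem_primeFactors hp).one_lt.ne' (Nat.dvd_one.mp this)
      · exact Nat.prod_primeFactors_of_squarefree (hd.squarefree_of_dvd hb.1.1)
  rw [h1, Finset.prod_ite]
  simp

end Pool.Agent.Work.MP_484fb8_nt
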