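import Mathlib

/-!
# Selberg's upper bound sieve (completing Mathlib's `BoundingSieve`)
-/

set_option autoImplicit false

open scoped ArithmeticFunction.Moebius
open Finset Nat ArithmeticFunction BoundingSieve

namespace Pool.Agent.Work.MP_484fb8_nt

variable {s : BoundingSieve}

/-- The sum `G(D) = ∑_{l ∣ P, l ≤ D} g(l)`. -/
noncomputable def GSum (s : BoundingSieve) (D : ℕ) : ℝ :=
  ∑ l ∈ s.prodPrimes.divisors with l ≤ D, s.selbergTerms l

/-- Selberg's weights. -/
noncomputable def wt (s : BoundingSieve) (D : ℕ) (d : ℕ) : ℝ :=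
  (μ d : ℝ) * (s.nu d)⁻¹ * (GSum s D)⁻¹ *
    ∑ k ∈ s.prodPrimes.divisors with (k ≤ D ∧ d ∣ k), s.selbergTerms k

lemma GSum_pos {D : ℕ} (hD : 1 ≤ D) : 0 < GSum s D := by
  unfold GSum
  apply sum_pos
  · intro l hl
    rw [mem_filter, mem_divisors] at hl
    exact selbergTerms_pos hl.1.1
  · refine ⟨1, ?_⟩
    rw [mem_filter, mem_divisors]
    exact ⟨⟨one_dvd _, prodPrimes_ne_zero⟩, hD⟩

lemma wt_one {D : ℕ} (hD : 1 ≤ D) : wt s D 1 = 1 := by
  unfold wt
  have h1 : s.nu 1 = 1 := s.nu_mult.map_one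
  have h2 : ∑ k ∈ s.prodPrimes.divisors with (k ≤ D ∧ 1 ∣ k), s.selbergTerms k = GSum s D := by
    unfold GSum
    apply sum_congr
    · ext k; simp
    · intros; rfl
  rw [h1, h2]
  have := (GSum_pos (s := s) hD).ne'
  simp [this]

lemma wt_eq_zero_of_not_dvd {D d : ℕ} (hd : ¬ d ∣ s.prodPrimes) : wt s D d = 0 := by
  unfold wt
  have : ∑ k ∈ s.prodPrimes.divisors with (k ≤ D ∧ d ∣ k), s.selbergTerms k = 0 := by
    apply sum_eq_zero
    intro k hk
    rw [mem_filter, mem_divisors] at hk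
    exact absurd (hk.2.2.trans hk.1.1) hd
  rw [this, mul_zero]

lemma wt_eq_zero_of_lt {D d : ℕ} (hd : D < d) : wt s D d = 0 := by
  unfold wt
  have : ∑ k ∈ s.prodPrimes.divisors with (k ≤ D ∧ d ∣ k), s.selbergTerms k = 0 := by
    apply sum_eq_zero
    intro k hk
    rw [mem_filter, mem_divisors] at hk
    have hk0 : 0 < k := Nat.pos_of_ne_zero (ne_zero_of_dvd_ne_zero hk.1.2 hk.1.1)
    have := Nat.le_of_dvd hk0 hk.2.2
    omega
  rw [this, mul_zero]

/-- `∑_{l ∣ d ∣ k} μ(d) = μ(l) [k = l]` for `k` squarefree. -/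
lemma sum_moebius_between {P l k : ℕ} (hP : Squarefree P) (hk : k ∣ P) :
    (∑ d ∈ P.divisors with (l ∣ d ∧ d ∣ k), (μ d : ℝ)) = if k = l then (μ l : ℝ) else 0 := by
  by_cases hlk : l ∣ k
  · obtain ⟨m, rfl⟩ := hlk
    have hP0 : P ≠ 0 := hP.ne_zero
    have hlm : Squarefree (l * m) := hP.squarefree_of_dvd hk
    have hcop : l.Coprime m := Nat.coprime_of_squarefree_mul hlm
    have hl0 : l ≠ 0 := by rintro rfl; simp at hlm
    have hm0 : m ≠ 0 := by rintro rfl; simp at hlm
    have h1 : (∑ d ∈ P.divisors with (l ∣ d ∧ d ∣ l * m), (μ d : ℝ))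
        = ∑ e ∈ m.divisors, (μ (l * e) : ℝ) := by
      symm
      apply sum_bij (fun e _ => l * e)
      · intro e he
        rw [mem_divisors] at he
        rw [mem_filter, mem_divisors]
        have : l * e ∣ l * m := mul_dvd_mul_left l he.1
        exact ⟨⟨this.trans hk, hP0⟩, dvd_mul_right _ _, this⟩
      · intro a _ b _ hab
        exact Nat.eq_of_mul_eq_mul_left (Nat.pos_of_ne_zero hl0) hab
      · intro d hd
        rw [mem_filter, mem_divisors] at hd
        obtain ⟨_, ⟨e, rfl⟩, h2⟩ := hd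
        refine ⟨e, ?_, rfl⟩
        rw [mem_divisors]
        exact ⟨Nat.dvd_of_mul_dvd_mul_left (Nat.pos_of_ne_zero hl0) h2, hm0⟩
      · intro e _; rfl
    rw [h1]
    have h2 : ∀ e ∈ m.divisors, (μ (l * e) : ℝ) = (μ l : ℝ) * (μ e : ℝ) := by
      intro e he
      rw [mem_divisors] at he
      have hc : l.Coprime e := Nat.Coprime.coprime_dvd_right he.1 hcop
      rw [isMultiplicative_moebius.map_mul_of_coprime hc]
      push_cast; ring
    rw [sum_congr rfl h2, ← mul_sum]
    have h3 : (∑ e ∈ m.divisors, (μ e : ℝ)) = if m = 1 then 1 else 0 := by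
      have := congrArg (fun f : ArithmeticFunction ℤ => f m) moebius_mul_coe_zeta
      simp only [coe_mul_zeta_apply, one_apply] at this
      have h4 : ((∑ e ∈ m.divisors, μ e : ℤ) : ℝ) = ((if m = 1 then 1 else 0 : ℤ) : ℝ) := by
        rw [this]
      push_cast at h4
      simpa using h4
    rw [h3]
    by_cases hm : m = 1
    · simp [hm]
    · have : ¬ (l * m = l) := by
        intro h
        apply hm
        have : l * m = l * 1 := by rw [h, mul_one]
        exact Nat.eq_of_mul_eq_mul_left (Nat.pos_of_ne_zero hl0) this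
      simp [hm, this]
  · have hne : k ≠ l := by rintro rfl; exact hlk dvd_rfl
    rw [if_neg hne]
    apply sum_eq_zero
    intro d hd
    rw [mem_filter] at hd
    exact absurd (hd.2.1.trans hd.2.2) hlk

lemma nu_mul_wt {D d : ℕ} (hd : d ∣ s.prodPrimes) :
    s.nu d * wt s D d = (GSum s D)⁻¹ * ((μ d : ℝ) *
      ∑ k ∈ s.prodPrimes.divisors with (k ≤ D ∧ d ∣ k), s.selbergTerms k) := by
  unfold wt
  have := nu_ne_zero hd
  field_simp

lemma sum_nu_wt {D l : ℕ} (hl : l ∣ s.prodPrimes) :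
    (∑ d ∈ s.prodPrimes.divisors, if l ∣ d then s.nu d * wt s D d else 0)
      = (GSum s D)⁻¹ * (if l ≤ D then (μ l : ℝ) * s.selbergTerms l else 0) := by
  have h1 : ∀ d ∈ s.prodPrimes.divisors, (if l ∣ d then s.nu d * wt s D d else 0)
      = (GSum s D)⁻¹ * ∑ k ∈ s.prodPrimes.divisors with k ≤ D,
          s.selbergTerms k * (if (l ∣ d ∧ d ∣ k) then (μ d : ℝ) else 0) := by
    intro d hd
    rw [mem_divisors] at hd
    by_cases h : l ∣ d
    · rw [if_pos h, nu_mul_wt hd.1]
      congr 1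
      rw [mul_sum]
      have : filter (fun k => k ≤ D ∧ d ∣ k) s.prodPrimes.divisors
          = filter (fun k => d ∣ k) (filter (fun k => k ≤ D) s.prodPrimes.divisors) := by
        rw [filter_filter]
      rw [this, sum_filter (fun k => d ∣ k)]
      apply sum_congr rfl
      intro k _
      by_cases hk : d ∣ k
      · simp [h, hk, mul_comm]
      · simp [hk]
    · rw [if_neg h]
      symm
      have : ∑ k ∈ s.prodPrimes.divisors with k ≤ D,
          s.selbergTerms k * (if (l ∣ d ∧ d ∣ k) then (μ d : ℝ) else 0) = 0 := by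
        apply sum_eq_zero
        intro k _
        simp [h]
      rw [this, mul_zero]
  rw [sum_congr rfl h1, ← mul_sum, sum_comm]
  congr 1
  have h2 : ∀ k ∈ filter (fun k => k ≤ D) s.prodPrimes.divisors,
      ∑ d ∈ s.prodPrimes.divisors, s.selbergTerms k * (if (l ∣ d ∧ d ∣ k) then (μ d : ℝ) else 0)
        = if k = l then s.selbergTerms k * (μ l : ℝ) else 0 := by
    intro k hk
    rw [mem_filter, mem_divisors] at hk
    rw [← mul_sum, ← sum_filter, sum_moebius_between s.prodPrimes_squarefree hk.1.1]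
    split_ifs <;> simp
  rw [sum_congr rfl h2, sum_ite_eq']
  by_cases hlD : l ≤ D
  · rw [if_pos, if_pos hlD]
    · ring
    · rw [mem_filter, mem_divisors]
      exact ⟨⟨hl, prodPrimes_ne_zero⟩, hlD⟩
  · rw [if_neg, if_neg hlD]
    rw [mem_filter]
    exact fun h => hlD h.2

lemma mainSum_wt {D : ℕ} (hD : 1 ≤ D) : s.mainSum (lambdaSquared (wt s D)) = (GSum s D)⁻¹ := by
  rw [mainSum_lambdaSquared_eq_sum_mul_sum_sq]
  have hG := (GSum_pos (s := s) hD).ne'
  have h1 : ∀ l ∈ s.prodPrimes.divisors, (s.selbergTerms l)⁻¹ *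
      (∑ d ∈ s.prodPrimes.divisors, if l ∣ d then s.nu d * wt s D d else 0) ^ 2
      = (GSum s D)⁻¹ ^ 2 * (if l ≤ D then s.selbergTerms l else 0) := by
    intro l hl
    rw [mem_divisors] at hl
    rw [sum_nu_wt hl.1]
    have hg := (selbergTerms_pos hl.1).ne'
    have hsq : Squarefree l := s.prodPrimes_squarefree.squarefree_of_dvd hl.1
    have hmu : (μ l : ℝ) ^ 2 = 1 := by
      have : (μ l) ^ 2 = 1 := by
        rw [moebius_sq_eq_one_of_squarefree hsq]
      exact_mod_cast this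
    split_ifs with h
    · calc (s.selbergTerms l)⁻¹ * ((GSum s D)⁻¹ * ((μ l : ℝ) * s.selbergTerms l)) ^ 2
          = (GSum s D)⁻¹ ^ 2 * ((μ l : ℝ) ^ 2) *
            ((s.selbergTerms l)⁻¹ * s.selbergTerms l * s.selbergTerms l) := by ring
        _ = (GSum s D)⁻¹ ^ 2 * s.selbergTerms l := by
          rw [hmu, inv_mul_cancel₀ hg]; ring
    · simp
  rw [sum_congr rfl h1, ← mul_sum, ← sum_filter]
  change (GSum s D)⁻¹ ^ 2 * GSum s D = (GSum s D)⁻¹
  field_simp

lemma abs_wt_le_one {D : ℕ} (hD : 1 ≤ D) (d : ℕ) : |wt s D d| ≤ 1 := by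
  by_cases hd : d ∣ s.prodPrimes
  swap
  · rw [wt_eq_zero_of_not_dvd hd]; simp
  have hG := GSum_pos (s := s) hD
  have hnu := nu_pos_of_dvd_prodPrimes hd
  have hP0 : s.prodPrimes ≠ 0 := prodPrimes_ne_zero
  have hd0 : d ≠ 0 := ne_zero_of_dvd_ne_zero hP0 hd
  -- key inequality
  have key : (s.nu d)⁻¹ * ∑ k ∈ s.prodPrimes.divisors with (k ≤ D ∧ d ∣ k), s.selbergTerms k
      ≤ GSum s D := by
    rw [nu_inv_eq_sum_divisors_inv_selbergTerms hd, ← sum_filter,
      Nat.divisors_filter_dvd_of_dvd hP0 hd, sum_mul_sum]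
    rw [← sum_product']
    unfold GSum
    -- rewrite each term
    have h1 : ∀ x ∈ d.divisors ×ˢ (filter (fun k => k ≤ D ∧ d ∣ k) s.prodPrimes.divisors),
        (s.selbergTerms x.1)⁻¹ * s.selbergTerms x.2 = s.selbergTerms (x.2 / x.1) := by
      intro x hx
      rw [mem_product, mem_divisors, mem_filter, mem_divisors] at hx
      obtain ⟨⟨he, _⟩, ⟨hk, _⟩, _, hdk⟩ := hx
      have hek : x.1 ∣ x.2 := he.trans hdk
      obtain ⟨m, hm⟩ := hek
      have hsq : Squarefree x.2 := s.prodPrimes_squarefree.squarefree_of_dvd hk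
      have hcop : x.1.Coprime m := by
        rw [hm] at hsq
        exact Nat.coprime_of_squarefree_mul hsq
      have he0 : x.1 ≠ 0 := ne_zero_of_dvd_ne_zero hd0 he
      have hdiv : x.2 / x.1 = m := by
        rw [hm]; exact Nat.mul_div_cancel_left m (Nat.pos_of_ne_zero he0)
      rw [hdiv]
      nth_rewrite 1 [hm]
      rw [selbergTerms_isMultiplicative.map_mul_of_coprime hcop, ← mul_assoc,
        inv_mul_cancel₀ (selbergTerms_pos (he.trans hd)).ne', one_mul]
    rw [sum_congr rfl h1]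
    -- injectivity
    have hinj : Set.InjOn (fun x : ℕ × ℕ => x.2 / x.1)
        (d.divisors ×ˢ (filter (fun k => k ≤ D ∧ d ∣ k) s.prodPrimes.divisors) : Finset (ℕ × ℕ)) := by
      intro x hx y hy hxy
      simp only [coe_product, Set.mem_prod, mem_coe, mem_divisors, mem_filter] at hx hy
      simp only at hxy
      have gen : ∀ z : ℕ × ℕ, (z.1 ∣ d ∧ d ≠ 0) ∧ (z.2 ∣ s.prodPrimes ∧ s.prodPrimes ≠ 0) ∧
          z.2 ≤ D ∧ d ∣ z.2 → z.1 = d / Nat.gcd (z.2 / z.1) d ∧ z.2 = z.1 * (z.2 / z.1) := by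
        rintro ⟨e, k⟩ ⟨⟨he, _⟩, ⟨hk, _⟩, _, hdk⟩
        simp only at *
        obtain ⟨f, hf⟩ := he
        obtain ⟨g, hg⟩ := hdk
        have he0 : e ≠ 0 := by rintro rfl; simp at hf; exact hd0 hf
        have hf0 : f ≠ 0 := by rintro rfl; simp at hf; exact hd0 hf
        have hsq : Squarefree k := s.prodPrimes_squarefree.squarefree_of_dvd hk
        have hke : k / e = f * g := by
          rw [hg, hf, mul_assoc]
          exact Nat.mul_div_cancel_left _ (Nat.pos_of_ne_zero he0)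
        rw [hke]
        have hcop : (f * g).Coprime e := by
          have : k = e * (f * g) := by rw [hg, hf, mul_assoc]
          rw [this] at hsq
          exact (Nat.coprime_of_squarefree_mul hsq).symm
        have hgcd : Nat.gcd (f * g) d = f := by
          have h1 : d = f * e := by rw [hf, mul_comm]
          rw [h1, Nat.gcd_mul_left]
          have : g.Coprime e := Nat.Coprime.coprime_dvd_left (dvd_mul_left g f) hcop
          rw [this, mul_one]
        rw [hgcd]
        refine ⟨?_, ?_⟩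
        · rw [hf]; exact (Nat.mul_div_cancel e (Nat.pos_of_ne_zero hf0)).symm
        · rw [hg, hf, mul_assoc]
      have hx' := gen x ⟨hx.1, hx.2.1, hx.2.2⟩
      have hy' := gen y ⟨hy.1, hy.2.1, hy.2.2⟩
      have e1 : x.1 = y.1 := by rw [hx'.1, hy'.1, hxy]
      have e2 : x.2 = y.2 := by rw [hx'.2, hy'.2, hxy, e1]
      exact Prod.ext e1 e2
    rw [← sum_image (f := fun l => s.selbergTerms l) (g := fun x : ℕ × ℕ => x.2 / x.1) hinj]
    apply sum_le_sum_of_subset_of_nonneg
    · intro l hl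
      rw [mem_image] at hl
      obtain ⟨x, hx, rfl⟩ := hl
      rw [mem_product, mem_divisors, mem_filter, mem_divisors] at hx
      obtain ⟨⟨he, _⟩, ⟨hk, _⟩, hkD, hdk⟩ := hx
      rw [mem_filter, mem_divisors]
      exact ⟨⟨(Nat.div_dvd_of_dvd (he.trans hdk)).trans hk, hP0⟩,
        (Nat.div_le_self _ _).trans hkD⟩
    · intro l hl _
      rw [mem_filter, mem_divisors] at hl
      exact (selbergTerms_pos hl.1.1).le
  have hnn : 0 ≤ ∑ k ∈ s.prodPrimes.divisors with (k ≤ D ∧ d ∣ k), s.selbergTerms k := by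
    apply sum_nonneg
    intro k hk
    rw [mem_filter, mem_divisors] at hk
    exact (selbergTerms_pos hk.1.1).le
  have hmu : |(μ d : ℝ)| ≤ 1 := by
    have : |μ d| ≤ 1 := abs_moebius_le_one
    exact_mod_cast this
  unfold wt
  rw [abs_mul, abs_mul, abs_mul, abs_of_pos (inv_pos.mpr hnu), abs_of_pos (inv_pos.mpr hG),
    abs_of_nonneg hnn]
  calc |(μ d : ℝ)| * (s.nu d)⁻¹ * (GSum s D)⁻¹ *
        ∑ k ∈ s.prodPrimes.divisors with (k ≤ D ∧ d ∣ k), s.selbergTerms k
      = |(μ d : ℝ)| * ((GSum s D)⁻¹ * ((s.nu d)⁻¹ *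
        ∑ k ∈ s.prodPrimes.divisors with (k ≤ D ∧ d ∣ k), s.selbergTerms k)) := by ring
    _ ≤ 1 * ((GSum s D)⁻¹ * GSum s D) := by
        apply mul_le_mul hmu _ _ zero_le_one
        · exact mul_le_mul_of_nonneg_left key (inv_pos.mpr hG).le
        · exact mul_nonneg (inv_pos.mpr hG).le (mul_nonneg (inv_pos.mpr hnu).le hnn)
    _ = 1 := by rw [inv_mul_cancel₀ hG.ne', one_mul]

lemma errSum_le {D : ℕ} (hD : 1 ≤ D) :
    s.errSum (lambdaSquared (wt s D)) ≤
      ∑ d1 ∈ s.prodPrimes.divisors with d1 ≤ D, ∑ d2 ∈ s.prodPrimes.divisors with d2 ≤ D,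
        |s.rem (Nat.lcm d1 d2)| := by
  have hP0 : s.prodPrimes ≠ 0 := prodPrimes_ne_zero
  have h1 : ∀ d ∈ s.prodPrimes.divisors, |lambdaSquared (wt s D) d| * |s.rem d|
      ≤ ∑ d1 ∈ s.prodPrimes.divisors, ∑ d2 ∈ s.prodPrimes.divisors,
        if d = Nat.lcm d1 d2 then |wt s D d1| * |wt s D d2| * |s.rem d| else 0 := by
    intro d hd
    rw [mem_divisors] at hd
    have hsub : d.divisors ⊆ s.prodPrimes.divisors := Nat.divisors_subset_of_dvd hP0 hd.1
    have h2 : |lambdaSquared (wt s D) d| ≤ ∑ d1 ∈ d.divisors, ∑ d2 ∈ d.divisors,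
        if d = Nat.lcm d1 d2 then |wt s D d1| * |wt s D d2| else 0 := by
      unfold lambdaSquared
      refine (abs_sum_le_sum_abs _ _).trans (sum_le_sum fun d1 _ => ?_)
      refine (abs_sum_le_sum_abs _ _).trans (sum_le_sum fun d2 _ => ?_)
      split_ifs
      · rw [abs_mul]
      · simp
    have h3 : ∑ d1 ∈ d.divisors, ∑ d2 ∈ d.divisors,
        (if d = Nat.lcm d1 d2 then |wt s D d1| * |wt s D d2| else 0)
        ≤ ∑ d1 ∈ s.prodPrimes.divisors, ∑ d2 ∈ s.prodPrimes.divisors,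
        (if d = Nat.lcm d1 d2 then |wt s D d1| * |wt s D d2| else 0) := by
      have hnn : ∀ d1 d2 : ℕ, 0 ≤ (if d = Nat.lcm d1 d2 then |wt s D d1| * |wt s D d2| else 0) := by
        intro d1 d2
        split_ifs
        · positivity
        · exact le_rfl
      calc _ ≤ ∑ d1 ∈ d.divisors, ∑ d2 ∈ s.prodPrimes.divisors,
            (if d = Nat.lcm d1 d2 then |wt s D d1| * |wt s D d2| else 0) :=
            sum_le_sum fun d1 _ => sum_le_sum_of_subset_of_nonneg hsub fun d2 _ _ => hnn d1 d2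
        _ ≤ _ := sum_le_sum_of_subset_of_nonneg hsub
            fun d1 _ _ => sum_nonneg fun d2 _ => hnn d1 d2
    calc |lambdaSquared (wt s D) d| * |s.rem d|
        ≤ (∑ d1 ∈ s.prodPrimes.divisors, ∑ d2 ∈ s.prodPrimes.divisors,
        (if d = Nat.lcm d1 d2 then |wt s D d1| * |wt s D d2| else 0)) * |s.rem d| :=
          mul_le_mul_of_nonneg_right (h2.trans h3) (abs_nonneg _)
      _ = _ := by
          rw [sum_mul]
          apply sum_congr rfl
          intro d1 _
          rw [sum_mul]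
          apply sum_congr rfl
          intro d2 _
          split_ifs <;> simp
  unfold errSum
  refine (sum_le_sum h1).trans ?_
  rw [sum_comm]
  have h4 : ∀ d1 ∈ s.prodPrimes.divisors,
      ∑ d ∈ s.prodPrimes.divisors, ∑ d2 ∈ s.prodPrimes.divisors,
        (if d = Nat.lcm d1 d2 then |wt s D d1| * |wt s D d2| * |s.rem d| else 0)
      = ∑ d2 ∈ s.prodPrimes.divisors, |wt s D d1| * |wt s D d2| * |s.rem (Nat.lcm d1 d2)| := by
    intro d1 hd1
    rw [sum_comm]
    apply sum_congr rfl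
    intro d2 hd2
    rw [mem_divisors] at hd1 hd2
    rw [sum_ite_eq' _ (Nat.lcm d1 d2)]
    rw [if_pos]
    rw [mem_divisors]
    exact ⟨Nat.lcm_dvd hd1.1 hd2.1, hP0⟩
  rw [sum_congr rfl h4, sum_filter]
  apply sum_le_sum
  intro d1 _
  by_cases hd1 : d1 ≤ D
  · rw [if_pos hd1, sum_filter]
    apply sum_le_sum
    intro d2 _
    by_cases hd2 : d2 ≤ D
    · rw [if_pos hd2]
      have a1 := abs_wt_le_one (s := s) hD d1
      have a2 := abs_wt_le_one (s := s) hD d2
      have a3 : |wt s D d1| * |wt s D d2| ≤ 1 := by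
        calc |wt s D d1| * |wt s D d2| ≤ 1 * 1 := mul_le_mul a1 a2 (abs_nonneg _) zero_le_one
          _ = 1 := one_mul 1
      calc |wt s D d1| * |wt s D d2| * |s.rem (Nat.lcm d1 d2)|
          ≤ 1 * |s.rem (Nat.lcm d1 d2)| := mul_le_mul_of_nonneg_right a3 (abs_nonneg _)
        _ = _ := one_mul _
    · rw [if_neg hd2, wt_eq_zero_of_lt (not_le.mp hd2)]
      simp
  · rw [if_neg hd1, wt_eq_zero_of_lt (not_le.mp hd1)]
    simp

/-- **Selberg's upper bound sieve.** -/
theorem selberg_upper_bound {D : ℕ} (hD : 1 ≤ D) :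
    s.siftedSum ≤ s.totalMass * (GSum s D)⁻¹ +
      ∑ d1 ∈ s.prodPrimes.divisors with d1 ≤ D, ∑ d2 ∈ s.prodPrimes.divisors with d2 ≤ D,
        |s.rem (Nat.lcm d1 d2)| := by
  have h := siftedSum_le_mainSum_errSum_of_upperMoebius (s := s) (lambdaSquared (wt s D))
    (upperMoebius_lambdaSquared _ (wt_one hD))
  rw [mainSum_wt hD] at h
  exact h.trans (add_le_add le_rfl (errSum_le hD))

end Pool.Agent.Work.MP_484fb8_nt
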