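import Mathlib
import Pool.Agent.Work.MP_484fb8_nt.Selberg
import Pool.Agent.Work.MP_484fb8_nt.PairCount

/-!
# Selberg's sieve for prime pairs `q, q + h`
-/

set_option autoImplicit false

open Finset Nat ArithmeticFunction BoundingSieve

namespace Pool.Agent.Work.MP_484fb8_nt

/-- The local densities of the pair sieve. -/
noncomputable def pairNu (h : ℕ) : ArithmeticFunction ℝ :=
  ArithmeticFunction.prodPrimeFactors (fun p => if p ∣ h then (1 : ℝ) / p else 2 / p)

lemma pairNu_prime (h p : ℕ) (hp : p.Prime) :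
    pairNu h p = if p ∣ h then (1 : ℝ) / p else 2 / p := by
  unfold pairNu
  rw [ArithmeticFunction.prodPrimeFactors_apply hp.ne_zero, hp.primeFactors, prod_singleton]

lemma pairNu_pos_prime (h p : ℕ) (hp : p.Prime) : 0 < pairNu h p := by
  rw [pairNu_prime h p hp]
  have : (0 : ℝ) < p := by exact_mod_cast hp.pos
  split_ifs <;> positivity

lemma pairNu_lt_one_prime (h p : ℕ) (hh : Even h) (hp : p.Prime) : pairNu h p < 1 := by
  rw [pairNu_prime h p hp]
  have hp0 : (0 : ℝ) < p := by exact_mod_cast hp.pos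
  split_ifs with hd
  · rw [div_lt_one hp0]
    exact_mod_cast hp.one_lt
  · rw [div_lt_one hp0]
    have h2 : p ≠ 2 := by
      rintro rfl
      exact hd hh.two_dvd
    have : 2 < p := lt_of_le_of_ne hp.two_le (Ne.symm h2)
    exact_mod_cast this

lemma pairNu_eq (d h : ℕ) (hd : Squarefree d) : pairNu h d = (#(cdiv d h) : ℝ) / d := by
  unfold pairNu
  rw [ArithmeticFunction.prodPrimeFactors_apply hd.ne_zero, card_cdiv d h hd]
  have h1 : (d : ℝ) = ∏ p ∈ d.primeFactors, (p : ℝ) := by
    rw [← Nat.cast_prod, Nat.prod_primeFactors_of_squarefree hd]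
  rw [h1, ← prod_div_distrib]
  apply prod_congr rfl
  intro p _
  split_ifs <;> rfl

/-- The sieve for prime pairs. -/
noncomputable def pairSieve (N h D : ℕ) (hh : Even h) : BoundingSieve where
  support := (Ioc 0 N).image (fun x => x * (x + h))
  prodPrimes := primorial D
  prodPrimes_squarefree := squarefree_primorial D
  weights := fun _ => 1
  weights_nonneg := fun _ => zero_le_one
  totalMass := N
  nu := pairNu h
  nu_mult := ArithmeticFunction.IsMultiplicative.prodPrimeFactors _
  nu_pos_of_prime := fun p hp _ => pairNu_pos_prime h p hp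
  nu_lt_one_of_prime := fun p hp _ => pairNu_lt_one_prime h p hh hp

lemma inj_mul_add (h : ℕ) {S : Set ℕ} (hS : ∀ x ∈ S, 0 < x) :
    Set.InjOn (fun x => x * (x + h)) S := by
  intro x hx y hy hxy
  have hx0 := hS x hx
  have hy0 := hS y hy
  simp only at hxy
  rcases lt_trichotomy x y with hlt | heq | hlt
  · exfalso
    have : x * (x + h) < y * (y + h) := by
      apply Nat.mul_lt_mul_of_lt_of_lt hlt
      omega
    omega
  · exact heq
  · exfalso
    have : y * (y + h) < x * (x + h) := by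
      apply Nat.mul_lt_mul_of_lt_of_lt hlt
      omega
    omega

lemma pairSieve_multSum (N h D d : ℕ) (hh : Even h) :
    (pairSieve N h D hh).multSum d = (#{x ∈ Ioc 0 N | d ∣ x * (x + h)} : ℕ) := by
  unfold multSum pairSieve
  simp only
  rw [sum_image]
  · rw [← sum_filter]
    simp
  · apply inj_mul_add
    intro x hx
    simp only [coe_Ioc, Set.mem_Ioc] at hx
    exact hx.1

lemma pairSieve_rem (N h D d : ℕ) (hh : Even h) (hd : Squarefree d) :
    |(pairSieve N h D hh).rem d| ≤ #(cdiv d h) := by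
  unfold rem
  rw [pairSieve_multSum]
  have : (pairSieve N h D hh).nu d * (pairSieve N h D hh).totalMass
      = (#(cdiv d h) : ℝ) / d * N := by
    change pairNu h d * (N : ℝ) = _
    rw [pairNu_eq d h hd]
  rw [this]
  exact card_dvd_mul_approx N d h hd

/-- Number of `q ≤ N` with `q` and `q + h` both prime. -/
def pairCount (N h : ℕ) : ℕ := #{x ∈ Ioc 0 N | x.Prime ∧ (x + h).Prime}

lemma pairCount_le (N h D : ℕ) (hh : Even h) :
    (pairCount N h : ℝ) ≤ D + (pairSieve N h D hh).siftedSum := by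
  have h1 : pairCount N h ≤ D + #{x ∈ Ioc 0 N | (primorial D).Coprime (x * (x + h))} := by
    unfold pairCount
    have hsub : {x ∈ Ioc 0 N | x.Prime ∧ (x + h).Prime} ⊆
        Ioc 0 D ∪ {x ∈ Ioc 0 N | (primorial D).Coprime (x * (x + h))} := by
      intro x hx
      rw [mem_filter, mem_Ioc] at hx
      rw [mem_union, mem_filter, mem_Ioc, mem_Ioc]
      obtain ⟨⟨hx0, hxN⟩, hp1, hp2⟩ := hx
      by_cases hxD : x ≤ D
      · left; exact ⟨hx0, hxD⟩
      · right
        refine ⟨⟨hx0, hxN⟩, ?_⟩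
        apply Nat.Coprime.mul_right
        · rw [Nat.coprime_comm, hp1.coprime_iff_not_dvd, hp1.dvd_primorial_iff]
          exact hxD
        · rw [Nat.coprime_comm, hp2.coprime_iff_not_dvd, hp2.dvd_primorial_iff]
          omega
    refine (card_le_card hsub).trans ((card_union_le _ _).trans ?_)
    simp
  have h2 : (pairSieve N h D hh).siftedSum
      = (#{x ∈ Ioc 0 N | (primorial D).Coprime (x * (x + h))} : ℕ) := by
    unfold siftedSum pairSieve
    simp only
    rw [sum_image]
    · rw [← sum_filter]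
      simp
    · apply inj_mul_add
      intro x hx
      simp only [coe_Ioc, Set.mem_Ioc] at hx
      exact hx.1
  rw [h2]
  exact_mod_cast h1

lemma card_cdiv_le (d h : ℕ) (hd : d ≠ 0) : #(cdiv d h) ≤ d := by
  unfold cdiv
  refine (card_filter_le _ _).trans ?_
  exact Nat.card_divisors_le_self d

/-- The sieve bound before inserting the lower bound for `G`. -/
theorem pairCount_le_of_G (N h D : ℕ) (hh : Even h) (hD : 1 ≤ D) :
    (pairCount N h : ℝ) ≤ D + N * (GSum (pairSieve N h D hh) D)⁻¹ + (D : ℝ) ^ 4 := by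
  have h1 := pairCount_le N h D hh
  have h2 := selberg_upper_bound (s := pairSieve N h D hh) hD
  have hmass : (pairSieve N h D hh).totalMass = N := rfl
  rw [hmass] at h2
  have h3 : ∑ d1 ∈ (pairSieve N h D hh).prodPrimes.divisors with d1 ≤ D,
      ∑ d2 ∈ (pairSieve N h D hh).prodPrimes.divisors with d2 ≤ D,
        |(pairSieve N h D hh).rem (Nat.lcm d1 d2)| ≤ (D : ℝ) ^ 4 := by
    have h4 : ∀ d1 ∈ (pairSieve N h D hh).prodPrimes.divisors.filter (fun d => d ≤ D),
        ∀ d2 ∈ (pairSieve N h D hh).prodPrimes.divisors.filter (fun d => d ≤ D),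
        |(pairSieve N h D hh).rem (Nat.lcm d1 d2)| ≤ (D : ℝ) ^ 2 := by
      intro d1 hd1 d2 hd2
      rw [mem_filter, mem_divisors] at hd1 hd2
      have hsq : Squarefree (Nat.lcm d1 d2) :=
        (pairSieve N h D hh).prodPrimes_squarefree.squarefree_of_dvd
          (Nat.lcm_dvd hd1.1.1 hd2.1.1)
      refine (pairSieve_rem N h D _ hh hsq).trans ?_
      have h5 := card_cdiv_le (Nat.lcm d1 d2) h hsq.ne_zero
      have h6 : Nat.lcm d1 d2 ≤ d1 * d2 := Nat.le_of_dvd
        (Nat.mul_pos (Nat.pos_of_ne_zero (ne_zero_of_dvd_ne_zero hd1.1.2 hd1.1.1))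
          (Nat.pos_of_ne_zero (ne_zero_of_dvd_ne_zero hd2.1.2 hd2.1.1)))
        (Nat.lcm_dvd (dvd_mul_right _ _) (dvd_mul_left _ _))
      have h7 : d1 * d2 ≤ D * D := Nat.mul_le_mul hd1.2 hd2.2
      have h8 : #(cdiv (Nat.lcm d1 d2) h) ≤ D * D := h5.trans (h6.trans h7)
      calc ((#(cdiv (Nat.lcm d1 d2) h) : ℕ) : ℝ) ≤ ((D * D : ℕ) : ℝ) := by exact_mod_cast h8
        _ = (D : ℝ) ^ 2 := by push_cast; ring
    have hcard : #((pairSieve N h D hh).prodPrimes.divisors.filter (fun d => d ≤ D)) ≤ D := by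
      have hsub : (pairSieve N h D hh).prodPrimes.divisors.filter (fun d => d ≤ D) ⊆ Icc 1 D := by
        intro d hd
        rw [mem_filter, mem_divisors] at hd
        rw [mem_Icc]
        exact ⟨Nat.pos_of_ne_zero (ne_zero_of_dvd_ne_zero hd.1.2 hd.1.1), hd.2⟩
      have := card_le_card hsub
      simpa using this
    have hcard' : (#((pairSieve N h D hh).prodPrimes.divisors.filter (fun d => d ≤ D)) : ℝ) ≤ D := by
      exact_mod_cast hcard
    calc _ ≤ ∑ d1 ∈ (pairSieve N h D hh).prodPrimes.divisors with d1 ≤ D,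
          ∑ d2 ∈ (pairSieve N h D hh).prodPrimes.divisors with d2 ≤ D, (D : ℝ) ^ 2 :=
          sum_le_sum fun d1 hd1 => sum_le_sum fun d2 hd2 => h4 d1 hd1 d2 hd2
      _ = (#((pairSieve N h D hh).prodPrimes.divisors.filter (fun d => d ≤ D)) : ℝ) *
          ((#((pairSieve N h D hh).prodPrimes.divisors.filter (fun d => d ≤ D)) : ℝ) *
            (D : ℝ) ^ 2) := by
          rw [sum_const, sum_const, nsmul_eq_mul, nsmul_eq_mul]
      _ ≤ (D : ℝ) * ((D : ℝ) * (D : ℝ) ^ 2) := by gcongr
      _ = (D : ℝ) ^ 4 := by ring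
  linarith

end Pool.Agent.Work.MP_484fb8_nt
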