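import Mathlib
import Pool.Agent.Work.MP_484fb8_nt.PairSieve

/-!
# Lower bound for Selberg's `G` in the pair sieve
-/

set_option autoImplicit false

open Finset Nat ArithmeticFunction BoundingSieve

namespace Pool.Agent.Work.MP_484fb8_nt

lemma sum_le_sum_of_injOn' {α β : Type*} (s : Finset α) (t : Finset β) (f : α → β)
    (hf : ∀ a ∈ s, f a ∈ t) (hinj : Set.InjOn f s) (u : α → ℝ) (v : β → ℝ)
    (huv : ∀ a ∈ s, u a ≤ v (f a)) (hv : ∀ b ∈ t, 0 ≤ v b) :
    ∑ a ∈ s, u a ≤ ∑ b ∈ t, v b := by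
  classical
  calc ∑ a ∈ s, u a ≤ ∑ a ∈ s, v (f a) := sum_le_sum huv
    _ = ∑ b ∈ s.image f, v b := (sum_image hinj).symm
    _ ≤ ∑ b ∈ t, v b := by
        apply sum_le_sum_of_subset_of_nonneg
        · intro b hb
          rw [mem_image] at hb
          obtain ⟨a, ha, rfl⟩ := hb
          exact hf a ha
        · intro b hb _
          exact hv b hb

/-- Squarefree numbers in `[1,x]`. -/
def sqf (x : ℕ) : Finset ℕ := {a ∈ Icc 1 x | Squarefree a}

/-- `F(h) = ∑_{d ∣ h} 1/d`. -/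
noncomputable def FF (h : ℕ) : ℝ := ∑ d ∈ h.divisors, (1 : ℝ) / d

lemma FF_pos (h : ℕ) (hh : h ≠ 0) : 0 < FF h := by
  unfold FF
  apply sum_pos
  · intro d hd
    have : 0 < d := Nat.pos_of_mem_divisors hd
    positivity
  · exact ⟨1, by simp [hh]⟩

lemma FF_ge_one (h : ℕ) (hh : h ≠ 0) : 1 ≤ FF h := by
  unfold FF
  calc (1 : ℝ) = (1 : ℝ) / ((1 : ℕ) : ℝ) := by simp
    _ ≤ ∑ d ∈ h.divisors, (1 : ℝ) / d := by
      apply single_le_sum (f := fun d : ℕ => (1 : ℝ) / d)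
      · intro d _
        positivity
      · simp [hh]

lemma sum_inv_sq_le (x : ℕ) : ∑ m ∈ Icc 1 x, (1 : ℝ) / (m : ℝ) ^ 2 ≤ 2 := by
  have h : ∀ x : ℕ, ∑ m ∈ Icc 1 (x + 1), (1 : ℝ) / (m : ℝ) ^ 2 ≤ 2 - 1 / (x + 1) := by
    intro x
    induction x with
    | zero => simp; norm_num
    | succ n ih =>
      rw [sum_Icc_succ_top (by omega)]
      have h1 : (1 : ℝ) / ((n + 1 + 1 : ℕ) : ℝ) ^ 2 ≤ 1 / (n + 1) - 1 / (n + 1 + 1) := by
        push_cast
        have hn : (0 : ℝ) ≤ n := by positivity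
        rw [div_sub_div _ _ (by positivity) (by positivity), div_le_div_iff₀ (by positivity)
          (by positivity)]
        ring_nf
        nlinarith
      push_cast at h1 ⊢
      linarith
  rcases x with _ | x
  · simp
  · have := h x
    have h2 : (0 : ℝ) ≤ 1 / (x + 1) := by positivity
    linarith

lemma log_le_sum_inv (x : ℕ) (hx : 1 ≤ x) : Real.log x ≤ ∑ n ∈ Icc 1 x, (1 : ℝ) / n := by
  have h1 := log_add_one_le_harmonic x
  have h2 : ((harmonic x : ℚ) : ℝ) = ∑ n ∈ Icc 1 x, (1 : ℝ) / n := by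
    rw [harmonic_eq_sum_Icc]
    push_cast
    apply sum_congr rfl
    intro n _
    rw [one_div]
  rw [h2] at h1
  refine le_trans ?_ h1
  apply Real.log_le_log
  · exact_mod_cast hx
  · push_cast; linarith

lemma harmonic_le_sqf (x : ℕ) :
    ∑ n ∈ Icc 1 x, (1 : ℝ) / n ≤ 2 * ∑ a ∈ sqf x, (1 : ℝ) / a := by
  choose a b hab using fun n : ℕ => Nat.sq_mul_squarefree n
  have h1 : ∑ n ∈ Icc 1 x, (1 : ℝ) / n ≤
      ∑ z ∈ (Icc 1 x) ×ˢ (sqf x), (1 : ℝ) / (z.1 : ℝ) ^ 2 * (1 / (z.2 : ℝ)) := by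
    apply sum_le_sum_of_injOn' _ _ (fun n => (b n, a n))
    · intro n hn
      rw [mem_Icc] at hn
      obtain ⟨h1, h2⟩ := hab n
      have hb0 : b n ≠ 0 := by
        intro h0; rw [h0] at h1; simp at h1; omega
      have ha0 : a n ≠ 0 := h2.ne_zero
      have hbn : b n ≤ n := by
        calc b n ≤ b n ^ 2 := Nat.le_self_pow two_ne_zero _
          _ ≤ b n ^ 2 * a n := Nat.le_mul_of_pos_right _ (Nat.pos_of_ne_zero ha0)
          _ = n := h1
      have han : a n ≤ n := by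
        calc a n ≤ b n ^ 2 * a n := Nat.le_mul_of_pos_left _ (by positivity)
          _ = n := h1
      unfold sqf
      rw [mem_product, mem_filter, mem_Icc, mem_Icc]
      exact ⟨⟨Nat.pos_of_ne_zero hb0, hbn.trans hn.2⟩, ⟨Nat.pos_of_ne_zero ha0, han.trans hn.2⟩, h2⟩
    · intro n _ m _ hnm
      simp only [Prod.mk.injEq] at hnm
      rw [← (hab n).1, ← (hab m).1, hnm.1, hnm.2]
    · intro n hn
      simp only
      have h1 := (hab n).1
      have : (n : ℝ) = (b n : ℝ) ^ 2 * (a n : ℝ) := by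
        rw [← Nat.cast_pow, ← Nat.cast_mul, h1]
      rw [_root_.div_mul_div_comm, one_mul, ← this]
    · intro z _
      positivity
  have h2 : ∑ z ∈ (Icc 1 x) ×ˢ (sqf x), (1 : ℝ) / (z.1 : ℝ) ^ 2 * (1 / (z.2 : ℝ))
      = (∑ m ∈ Icc 1 x, (1 : ℝ) / (m : ℝ) ^ 2) * ∑ a ∈ sqf x, (1 : ℝ) / a := by
    rw [sum_mul_sum, ← sum_product']
  rw [h2] at h1
  refine h1.trans ?_
  apply mul_le_mul_of_nonneg_right (sum_inv_sq_le x)
  apply sum_nonneg
  intro a _
  positivity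

lemma sqf_le_mul (x h : ℕ) (hh : h ≠ 0) :
    ∑ a ∈ sqf x, (1 : ℝ) / a ≤ FF h * ∑ b ∈ sqf x with b.Coprime h, (1 : ℝ) / b := by
  have h1 : ∑ a ∈ sqf x, (1 : ℝ) / a ≤
      ∑ z ∈ h.divisors ×ˢ ((sqf x).filter (fun b => b.Coprime h)),
        (1 : ℝ) / (z.1 : ℝ) * (1 / (z.2 : ℝ)) := by
    apply sum_le_sum_of_injOn' _ _ (fun a => (Nat.gcd a h, a / Nat.gcd a h))
    · intro a ha
      unfold sqf at ha
      rw [mem_filter, mem_Icc] at ha
      obtain ⟨⟨ha1, hax⟩, hsq⟩ := ha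
      have hgpos : 0 < Nat.gcd a h := Nat.gcd_pos_of_pos_left _ ha1
      obtain ⟨b, hb⟩ := Nat.gcd_dvd_left a h
      have hdiv : a / Nat.gcd a h = b := by
        nth_rewrite 1 [hb]; exact Nat.mul_div_cancel_left b hgpos
      rw [hdiv, mem_product, mem_filter, mem_divisors]
      have hb0 : b ≠ 0 := by rintro rfl; rw [mul_zero] at hb; omega
      refine ⟨⟨Nat.gcd_dvd_right a h, hh⟩, ?_, ?_⟩
      · unfold sqf
        rw [mem_filter, mem_Icc]
        refine ⟨⟨Nat.pos_of_ne_zero hb0, ?_⟩, ?_⟩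
        · have : b ∣ a := Dvd.intro_left _ hb.symm
          exact (Nat.le_of_dvd ha1 this).trans hax
        · exact hsq.squarefree_of_dvd (Dvd.intro_left _ hb.symm)
      · rw [Nat.coprime_iff_gcd_eq_one]
        by_contra hne
        obtain ⟨p, hp, hpd⟩ := Nat.exists_prime_and_dvd hne
        have hpb : p ∣ b := hpd.trans (Nat.gcd_dvd_left _ _)
        have hph : p ∣ h := hpd.trans (Nat.gcd_dvd_right _ _)
        have hpa : p ∣ a := hpb.trans (Dvd.intro_left _ hb.symm)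
        have hpg : p ∣ Nat.gcd a h := Nat.dvd_gcd hpa hph
        have hpp : p * p ∣ a := by
          rw [hb]; exact mul_dvd_mul hpg hpb
        have := hsq p hpp
        exact hp.one_lt.ne' (Nat.isUnit_iff.mp this)
    · intro a _ a' _ haa
      simp only [Prod.mk.injEq] at haa
      calc a = Nat.gcd a h * (a / Nat.gcd a h) := (Nat.mul_div_cancel' (Nat.gcd_dvd_left a h)).symm
        _ = Nat.gcd a' h * (a' / Nat.gcd a' h) := by rw [haa.2, haa.1]
        _ = a' := Nat.mul_div_cancel' (Nat.gcd_dvd_left a' h)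
    · intro a _
      simp only
      have h1 : Nat.gcd a h * (a / Nat.gcd a h) = a := Nat.mul_div_cancel' (Nat.gcd_dvd_left a h)
      have : (a : ℝ) = (Nat.gcd a h : ℝ) * ((a / Nat.gcd a h : ℕ) : ℝ) := by
        rw [← Nat.cast_mul, h1]
      rw [_root_.div_mul_div_comm, one_mul, ← this]
    · intro z _
      positivity
  have h2 : ∑ z ∈ h.divisors ×ˢ ((sqf x).filter (fun b => b.Coprime h)),
        (1 : ℝ) / (z.1 : ℝ) * (1 / (z.2 : ℝ))
      = FF h * ∑ b ∈ sqf x with b.Coprime h, (1 : ℝ) / b := by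
    unfold FF
    rw [sum_mul_sum, ← sum_product']
  rw [h2] at h1
  exact h1

lemma mul_le_two_mul (x h : ℕ) :
    (∑ a ∈ sqf x, (1 : ℝ) / a) * ∑ b ∈ sqf x with b.Coprime h, (1 : ℝ) / b
      ≤ 2 * ∑ l ∈ sqf (x * x), (#(cdiv l h) : ℝ) / l := by
  have h0 : ∑ l ∈ sqf (x * x), (#(cdiv l h) : ℝ) / l
      = ∑ z ∈ (sqf (x * x)).sigma (fun l => cdiv l h), (1 : ℝ) / (z.1 : ℝ) := by
    rw [sum_sigma]
    apply sum_congr rfl
    intro l _
    simp only [sum_const, nsmul_eq_mul]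
    ring
  have h1 : ∑ z ∈ (sqf x) ×ˢ ((sqf x).filter (fun b => b.Coprime h)),
      (1 : ℝ) / (z.1 : ℝ) * (1 / (z.2 : ℝ)) ≤
      ∑ w ∈ (Icc 1 x) ×ˢ ((sqf (x * x)).sigma (fun l => cdiv l h)),
        (1 : ℝ) / (w.1 : ℝ) ^ 2 * (1 / (w.2.1 : ℝ)) := by
    apply sum_le_sum_of_injOn' _ _ (fun z : ℕ × ℕ => (Nat.gcd z.1 z.2,
      (⟨(z.1 / Nat.gcd z.1 z.2) * (z.2 / Nat.gcd z.1 z.2), z.2 / Nat.gcd z.1 z.2⟩ :
        (_ : ℕ) × ℕ)))
    · rintro ⟨a, b⟩ hz
      unfold sqf at hz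
      rw [mem_product, mem_filter, mem_filter, mem_filter, mem_Icc, mem_Icc] at hz
      obtain ⟨⟨⟨ha1, hax⟩, hasq⟩, ⟨⟨hb1, hbx⟩, hbsq⟩, hbh⟩ := hz
      simp only at *
      have hgpos : 0 < Nat.gcd a b := Nat.gcd_pos_of_pos_left _ ha1
      have ha' : a / Nat.gcd a b ∣ a := Nat.div_dvd_of_dvd (Nat.gcd_dvd_left a b)
      have hb' : b / Nat.gcd a b ∣ b := Nat.div_dvd_of_dvd (Nat.gcd_dvd_right a b)
      have hcop : (a / Nat.gcd a b).Coprime (b / Nat.gcd a b) :=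
        Nat.coprime_div_gcd_div_gcd hgpos
      have hsq : Squarefree ((a / Nat.gcd a b) * (b / Nat.gcd a b)) :=
        (Nat.squarefree_mul hcop).mpr ⟨hasq.squarefree_of_dvd ha', hbsq.squarefree_of_dvd hb'⟩
      have ha'' : a / Nat.gcd a b ≤ x := (Nat.le_of_dvd ha1 ha').trans hax
      have hb'' : b / Nat.gcd a b ≤ x := (Nat.le_of_dvd hb1 hb').trans hbx
      rw [mem_product, mem_sigma, mem_Icc]
      refine ⟨⟨hgpos, (Nat.gcd_le_left b ha1).trans hax⟩, ?_, ?_⟩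
      · unfold sqf
        rw [mem_filter, mem_Icc]
        exact ⟨⟨Nat.pos_of_ne_zero hsq.ne_zero, Nat.mul_le_mul ha'' hb''⟩, hsq⟩
      · unfold cdiv
        rw [mem_filter, mem_divisors]
        exact ⟨⟨dvd_mul_left _ _, hsq.ne_zero⟩, Nat.Coprime.coprime_dvd_left hb' hbh⟩
    · rintro ⟨a, b⟩ hz ⟨a', b'⟩ hz' hzz
      simp only [coe_product, Set.mem_prod, mem_coe, mem_filter, sqf, mem_Icc] at hz hz'
      simp only [Prod.mk.injEq, Sigma.mk.injEq] at hzz
      obtain ⟨hg, hl, hb⟩ := hzz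
      have hb := eq_of_heq hb
      have hgpos : 0 < Nat.gcd a b := Nat.gcd_pos_of_pos_left _ hz.1.1.1
      have hb0 : 0 < b / Nat.gcd a b :=
        Nat.div_pos (Nat.gcd_le_right a hz.2.1.1.1) hgpos
      have ha : a / Nat.gcd a b = a' / Nat.gcd a' b' := by
        rw [← hb] at hl
        exact Nat.eq_of_mul_eq_mul_right hb0 hl
      have e1 : a = a' := by
        calc a = Nat.gcd a b * (a / Nat.gcd a b) :=
              (Nat.mul_div_cancel' (Nat.gcd_dvd_left a b)).symm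
          _ = Nat.gcd a' b' * (a' / Nat.gcd a' b') := by rw [ha, hg]
          _ = a' := Nat.mul_div_cancel' (Nat.gcd_dvd_left a' b')
      have e2 : b = b' := by
        calc b = Nat.gcd a b * (b / Nat.gcd a b) :=
              (Nat.mul_div_cancel' (Nat.gcd_dvd_right a b)).symm
          _ = Nat.gcd a' b' * (b' / Nat.gcd a' b') := by rw [hb, hg]
          _ = b' := Nat.mul_div_cancel' (Nat.gcd_dvd_right a' b')
      rw [e1, e2]
    · rintro ⟨a, b⟩ hz
      simp only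
      have e1 : (a : ℝ) = (Nat.gcd a b : ℝ) * ((a / Nat.gcd a b : ℕ) : ℝ) := by
        rw [← Nat.cast_mul, Nat.mul_div_cancel' (Nat.gcd_dvd_left a b)]
      have e2 : (b : ℝ) = (Nat.gcd a b : ℝ) * ((b / Nat.gcd a b : ℕ) : ℝ) := by
        rw [← Nat.cast_mul, Nat.mul_div_cancel' (Nat.gcd_dvd_right a b)]
      rw [_root_.div_mul_div_comm, _root_.div_mul_div_comm]
      apply le_of_eq
      congr 1
      have e3 : (a : ℝ) * (b : ℝ) = ((Nat.gcd a b : ℝ) * ((a / Nat.gcd a b : ℕ) : ℝ)) *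
          ((Nat.gcd a b : ℝ) * ((b / Nat.gcd a b : ℕ) : ℝ)) := by
        rw [← e1, ← e2]
      rw [e3]
      rw [Nat.cast_mul]
      ring
    · intro z _
      positivity
  have h2 : ∑ w ∈ (Icc 1 x) ×ˢ ((sqf (x * x)).sigma (fun l => cdiv l h)),
        (1 : ℝ) / (w.1 : ℝ) ^ 2 * (1 / (w.2.1 : ℝ))
      = (∑ m ∈ Icc 1 x, (1 : ℝ) / (m : ℝ) ^ 2) *
        ∑ z ∈ (sqf (x * x)).sigma (fun l => cdiv l h), (1 : ℝ) / (z.1 : ℝ) := by
    rw [sum_mul_sum, ← sum_product']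
  have h3 : ∑ z ∈ (sqf x) ×ˢ ((sqf x).filter (fun b => b.Coprime h)),
      (1 : ℝ) / (z.1 : ℝ) * (1 / (z.2 : ℝ))
      = (∑ a ∈ sqf x, (1 : ℝ) / a) * ∑ b ∈ sqf x with b.Coprime h, (1 : ℝ) / b := by
    rw [sum_mul_sum, ← sum_product']
  rw [h2, h3] at h1
  rw [h0]
  refine h1.trans ?_
  apply mul_le_mul_of_nonneg_right (sum_inv_sq_le x)
  apply sum_nonneg
  intro z _
  positivity

lemma selbergTerms_ge (N h D l : ℕ) (hh : Even h) (hl : l ∣ primorial D) :
    (#(cdiv l h) : ℝ) / l ≤ (pairSieve N h D hh).selbergTerms l := by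
  have hsq : Squarefree l := (squarefree_primorial D).squarefree_of_dvd hl
  rw [selbergTerms_apply]
  change _ ≤ pairNu h l * ∏ p ∈ l.primeFactors, (1 - pairNu h p)⁻¹
  rw [pairNu_eq l h hsq]
  have h1 : (1 : ℝ) ≤ ∏ p ∈ l.primeFactors, (1 - pairNu h p)⁻¹ := by
    have : (1 : ℝ) = ∏ p ∈ l.primeFactors, (1 : ℝ) := by simp
    rw [this]
    apply prod_le_prod
    · intro _ _; exact zero_le_one
    · intro p hp
      have hpp := Nat.prime_of_mem_primeFactors hp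
      have h2 := pairNu_pos_prime h p hpp
      have h3 := pairNu_lt_one_prime h p hh hpp
      rw [one_le_inv₀ (by linarith)]
      linarith
  have h2 : (0 : ℝ) ≤ (#(cdiv l h) : ℝ) / l := by positivity
  calc (#(cdiv l h) : ℝ) / l = (#(cdiv l h) : ℝ) / l * 1 := (mul_one _).symm
    _ ≤ _ := mul_le_mul_of_nonneg_left h1 h2

/-- Lower bound for `G`. -/
theorem GSum_ge (N h D x : ℕ) (hh : Even h) (hh0 : h ≠ 0) (hx : 1 ≤ x) (hxD : x * x ≤ D) :
    (Real.log x) ^ 2 / (8 * FF h) ≤ GSum (pairSieve N h D hh) D := by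
  have hF := FF_pos h hh0
  have h1 : ∑ l ∈ sqf (x * x), (#(cdiv l h) : ℝ) / l ≤ GSum (pairSieve N h D hh) D := by
    unfold GSum
    apply sum_le_sum_of_injOn' _ _ (fun l => l)
    · intro l hl
      unfold sqf at hl
      rw [mem_filter, mem_Icc] at hl
      rw [mem_filter, mem_divisors]
      refine ⟨⟨?_, (primorial_ne_zero D : primorial D ≠ 0)⟩, hl.1.2.trans hxD⟩
      have h1 : l ∣ primorial l := Squarefree.dvd_primorial hl.2
      exact h1.trans (primorial_dvd_primorial (hl.1.2.trans hxD))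
    · intro a _ b _ hab; exact hab
    · intro l hl
      unfold sqf at hl
      rw [mem_filter, mem_Icc] at hl
      apply selbergTerms_ge
      have h1 : l ∣ primorial l := Squarefree.dvd_primorial hl.2
      exact h1.trans (primorial_dvd_primorial (hl.1.2.trans hxD))
    · intro l hl
      rw [mem_filter, mem_divisors] at hl
      exact (selbergTerms_pos hl.1.1).le
  have h2 := mul_le_two_mul x h
  have h3 := sqf_le_mul x h hh0
  have h4 := harmonic_le_sqf x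
  have h5 := log_le_sum_inv x hx
  set A := ∑ a ∈ sqf x, (1 : ℝ) / a
  set B := ∑ b ∈ sqf x with b.Coprime h, (1 : ℝ) / b
  have hA : Real.log x / 2 ≤ A := by linarith
  have hlog : 0 ≤ Real.log x := Real.log_natCast_nonneg x
  have hA0 : 0 ≤ A := le_trans (by positivity) hA
  have hB : A / FF h ≤ B := by
    rw [div_le_iff₀ hF]; linarith
  have h6 : A * (A / FF h) ≤ A * B := mul_le_mul_of_nonneg_left hB hA0
  have h7 : (Real.log x / 2) ^ 2 ≤ A ^ 2 := by
    apply pow_le_pow_left₀ (by positivity) hA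
  have h8 : (Real.log x / 2) ^ 2 / FF h ≤ A * (A / FF h) := by
    have : A * (A / FF h) = A ^ 2 / FF h := by ring
    rw [this]
    exact div_le_div_of_nonneg_right h7 hF.le
  have h9 : (Real.log x) ^ 2 / (8 * FF h) = ((Real.log x / 2) ^ 2 / FF h) / 2 := by
    field_simp
    ring
  rw [h9]
  linarith

/-- Sieve bound with a free parameter `x`. -/
theorem pairCount_le_param (N h x : ℕ) (hh : Even h) (hh0 : h ≠ 0) (hx : 2 ≤ x) :
    (pairCount N h : ℝ) ≤ (x : ℝ) ^ 2 + 8 * N * FF h / (Real.log x) ^ 2 + (x : ℝ) ^ 8 := by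
  have hD : 1 ≤ x * x := by nlinarith
  have h1 := pairCount_le_of_G N h (x * x) hh hD
  have h2 := GSum_ge N h (x * x) x hh hh0 (by omega) le_rfl
  have hF := FF_pos h hh0
  have hlog : 0 < Real.log x := Real.log_pos (by exact_mod_cast (by omega : 1 < x))
  have hpos : 0 < (Real.log x) ^ 2 / (8 * FF h) := by positivity
  have h3 : (GSum (pairSieve N h (x * x) hh) (x * x))⁻¹ ≤ 8 * FF h / (Real.log x) ^ 2 := by
    calc (GSum (pairSieve N h (x * x) hh) (x * x))⁻¹ ≤ ((Real.log x) ^ 2 / (8 * FF h))⁻¹ :=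
          inv_anti₀ hpos h2
      _ = 8 * FF h / (Real.log x) ^ 2 := by rw [inv_div]
  have h4 : (N : ℝ) * (GSum (pairSieve N h (x * x) hh) (x * x))⁻¹
      ≤ N * (8 * FF h / (Real.log x) ^ 2) := mul_le_mul_of_nonneg_left h3 (by positivity)
  push_cast at h1 h4
  have e1 : ((x : ℝ) * x) = (x : ℝ) ^ 2 := by ring
  have e2 : ((x : ℝ) * x) ^ 4 = (x : ℝ) ^ 8 := by ring
  have e3 : (N : ℝ) * (8 * FF h / (Real.log x) ^ 2) = 8 * N * FF h / (Real.log x) ^ 2 := by ring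
  rw [e2] at h1
  rw [e1] at h1
  rw [e3] at h4
  linarith

end Pool.Agent.Work.MP_484fb8_nt
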