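import Mathlib
import Pool.Agent.Work.MP_484fb8_nt.GLower

/-!
# The explicit bound for prime pairs, and the additive energy of two sets of primes
-/

set_option autoImplicit false

open Finset Nat

namespace Pool.Agent.Work.MP_484fb8_nt

lemma pairCount_le_self (N h : ℕ) : pairCount N h ≤ N := by
  unfold pairCount
  refine (card_filter_le _ _).trans ?_
  simp

lemma log_sq_le_sqrt (N : ℕ) (hN : 2 ≤ N) : (Real.log N) ^ 2 ≤ 16 * (N : ℝ) ^ (1 / 2 : ℝ) := by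
  have hN0 : (0 : ℝ) < N := by exact_mod_cast (by omega : 0 < N)
  have h1 : Real.log N = 4 * Real.log ((N : ℝ) ^ (1 / 4 : ℝ)) := by
    rw [Real.log_rpow hN0]; ring
  have h2 : Real.log ((N : ℝ) ^ (1 / 4 : ℝ)) ≤ (N : ℝ) ^ (1 / 4 : ℝ) := by
    have h3 := Real.log_le_sub_one_of_pos (Real.rpow_pos_of_pos hN0 (1 / 4 : ℝ))
    linarith
  have h0 : 0 ≤ Real.log N := Real.log_natCast_nonneg N
  have h3 : Real.log N ≤ 4 * (N : ℝ) ^ (1 / 4 : ℝ) := by rw [h1]; linarith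
  have h4 : ((N : ℝ) ^ (1 / 4 : ℝ)) ^ 2 = (N : ℝ) ^ (1 / 2 : ℝ) := by
    rw [← Real.rpow_natCast, ← Real.rpow_mul hN0.le]
    norm_num
  calc (Real.log N) ^ 2 ≤ (4 * (N : ℝ) ^ (1 / 4 : ℝ)) ^ 2 := pow_le_pow_left₀ h0 h3 2
    _ = 16 * ((N : ℝ) ^ (1 / 4 : ℝ)) ^ 2 := by ring
    _ = _ := by rw [h4]

/-- **Prime pairs, explicit.** For all `N ≥ 2` and all even `h ≥ 2`, there are at most
`8224 · F(h) · N / (log N)^2` primes `q ≤ N` with `q + h` prime. -/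
theorem pairCount_bound (N h : ℕ) (hN : 2 ≤ N) (hh : Even h) (hh0 : h ≠ 0) :
    (pairCount N h : ℝ) ≤ 8224 * FF h * (N / (Real.log N) ^ 2) := by
  have hN0 : (0 : ℝ) < N := by exact_mod_cast (by omega : 0 < N)
  have hlogN : 0 < Real.log N := Real.log_pos (by exact_mod_cast (by omega : 1 < N))
  have hF1 := FF_ge_one h hh0
  by_cases hbig : (4 : ℝ) ^ 16 ≤ N
  · set y : ℝ := (N : ℝ) ^ (1 / 16 : ℝ) with hy
    have hy4 : 4 ≤ y := by
      have : (4 : ℝ) = ((4 : ℝ) ^ 16) ^ (1 / 16 : ℝ) := by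
        rw [← Real.rpow_natCast, ← Real.rpow_mul (by norm_num)]
        norm_num
      rw [this, hy]
      exact Real.rpow_le_rpow (by positivity) hbig (by norm_num)
    set x : ℕ := ⌊y⌋₊ with hx
    have hxy : (x : ℝ) ≤ y := Nat.floor_le (by linarith)
    have hyx : y < x + 1 := Nat.lt_floor_add_one y
    have hx2 : 2 ≤ x := by
      have : (2 : ℝ) < x + 1 := by linarith
      have h3 : (3 : ℝ) < (x : ℝ) + 1 := by linarith
      have : (2 : ℝ) < x := by linarith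
      exact_mod_cast this.le
    have hmain := pairCount_le_param N h x hh hh0 hx2
    have hlogy : Real.log y = Real.log N / 16 := by
      rw [hy, Real.log_rpow hN0]; ring
    have hlogx : Real.log N / 32 ≤ Real.log x := by
      have hs : Real.sqrt y ≤ x := by
        have h1 : Real.sqrt y ≤ y - 1 := by
          rw [Real.sqrt_le_left (by linarith)]
          nlinarith
        linarith
      have h2 : Real.log (Real.sqrt y) ≤ Real.log x :=
        Real.log_le_log (Real.sqrt_pos.mpr (by linarith)) hs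
      rw [Real.log_sqrt (by linarith), hlogy] at h2
      linarith
    have hy8 : y ^ 8 = (N : ℝ) ^ (1 / 2 : ℝ) := by
      rw [hy, ← Real.rpow_natCast, ← Real.rpow_mul hN0.le]
      norm_num
    have hx0 : (0 : ℝ) ≤ x := by positivity
    have hx8 : (x : ℝ) ^ 8 ≤ (N : ℝ) ^ (1 / 2 : ℝ) := by
      rw [← hy8]; exact pow_le_pow_left₀ hx0 hxy 8
    have hx2' : (x : ℝ) ^ 2 ≤ (N : ℝ) ^ (1 / 2 : ℝ) := by
      have h1 : (1 : ℝ) ≤ x := by exact_mod_cast (by omega : 1 ≤ x)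
      calc (x : ℝ) ^ 2 ≤ (x : ℝ) ^ 8 := pow_le_pow_right₀ h1 (by norm_num)
        _ ≤ _ := hx8
    have hsq := log_sq_le_sqrt N hN
    have hhalf : (N : ℝ) ^ (1 / 2 : ℝ) * (N : ℝ) ^ (1 / 2 : ℝ) = N := by
      rw [← Real.rpow_add hN0]; norm_num
    have hroot : (N : ℝ) ^ (1 / 2 : ℝ) ≤ 16 * (N / (Real.log N) ^ 2) := by
      rw [← mul_div_assoc, le_div_iff₀ (by positivity)]
      have hp : 0 < (N : ℝ) ^ (1 / 2 : ℝ) := Real.rpow_pos_of_pos hN0 _
      calc (N : ℝ) ^ (1 / 2 : ℝ) * (Real.log N) ^ 2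
          ≤ (N : ℝ) ^ (1 / 2 : ℝ) * (16 * (N : ℝ) ^ (1 / 2 : ℝ)) :=
            mul_le_mul_of_nonneg_left hsq hp.le
        _ = 16 * ((N : ℝ) ^ (1 / 2 : ℝ) * (N : ℝ) ^ (1 / 2 : ℝ)) := by ring
        _ = 16 * N := by rw [hhalf]
    have hmid : 8 * N * FF h / (Real.log x) ^ 2 ≤ 8192 * FF h * (N / (Real.log N) ^ 2) := by
      have h1 : (Real.log N / 32) ^ 2 ≤ (Real.log x) ^ 2 :=
        pow_le_pow_left₀ (by positivity) hlogx 2
      have hFpos : 0 < FF h := by linarith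
      calc 8 * N * FF h / (Real.log x) ^ 2 ≤ 8 * N * FF h / (Real.log N / 32) ^ 2 := by
            apply div_le_div_of_nonneg_left (by positivity) (by positivity) h1
        _ = 8192 * FF h * (N / (Real.log N) ^ 2) := by
            field_simp
            norm_num
    have hQ : 0 ≤ (N : ℝ) / (Real.log N) ^ 2 := by positivity
    have h32 : 32 * ((N : ℝ) / (Real.log N) ^ 2) ≤ 32 * FF h * (N / (Real.log N) ^ 2) := by
      have := mul_le_mul_of_nonneg_right hF1 hQ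
      nlinarith
    calc (pairCount N h : ℝ) ≤ (x : ℝ) ^ 2 + 8 * N * FF h / (Real.log x) ^ 2 + (x : ℝ) ^ 8 := hmain
      _ ≤ 16 * (N / (Real.log N) ^ 2) + 8192 * FF h * (N / (Real.log N) ^ 2)
          + 16 * (N / (Real.log N) ^ 2) := by
          have a1 := hx2'.trans hroot
          have a2 := hx8.trans hroot
          linarith
      _ ≤ 8224 * FF h * (N / (Real.log N) ^ 2) := by
          have e : 8224 * FF h * ((N : ℝ) / (Real.log N) ^ 2) =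
            32 * FF h * (N / (Real.log N) ^ 2) + 8192 * FF h * (N / (Real.log N) ^ 2) := by ring
          rw [e]; linarith
  · push Not at hbig
    have h1 : (pairCount N h : ℝ) ≤ N := by exact_mod_cast pairCount_le_self N h
    have h2 : Real.log N ≤ 32 := by
      have : Real.log N ≤ Real.log ((4 : ℝ) ^ 16) := Real.log_le_log hN0 hbig.le
      rw [Real.log_pow] at this
      have h4 : Real.log 4 ≤ 2 := by
        have : Real.log 4 = 2 * Real.log 2 := by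
          rw [show (4 : ℝ) = 2 ^ 2 by norm_num, Real.log_pow]; norm_num
        have := Real.log_two_lt_d9
        linarith
      push_cast at this
      linarith
    have h3 : (Real.log N) ^ 2 ≤ 1024 := by nlinarith
    have h4 : (N : ℝ) ≤ 1024 * (N / (Real.log N) ^ 2) := by
      rw [← mul_div_assoc, le_div_iff₀ (by positivity)]
      nlinarith
    have hQ : 0 ≤ (N : ℝ) / (Real.log N) ^ 2 := by positivity
    have h5 : 8224 * ((N : ℝ) / (Real.log N) ^ 2) ≤ 8224 * FF h * (N / (Real.log N) ^ 2) := by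
      have := mul_le_mul_of_nonneg_right hF1 hQ
      nlinarith
    linarith

/-- Mean square of `F`. -/
theorem sum_FF_sq (Y : ℕ) : ∑ h ∈ Icc 1 Y, (FF h) ^ 2 ≤ 8 * Y := by
  -- expand
  have h1 : ∀ h ∈ Icc 1 Y, (FF h) ^ 2 = ∑ z ∈ (Icc 1 Y) ×ˢ (Icc 1 Y),
      if (z.1 ∣ h ∧ z.2 ∣ h) then (1 : ℝ) / (z.1 : ℝ) * (1 / (z.2 : ℝ)) else 0 := by
    intro h hh
    rw [mem_Icc] at hh
    have h0 : FF h = ∑ d ∈ Icc 1 Y, if d ∣ h then (1 : ℝ) / d else 0 := by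
      unfold FF
      rw [← sum_filter]
      apply sum_congr _ (fun _ _ => rfl)
      ext d
      rw [mem_divisors, mem_filter, mem_Icc]
      constructor
      · rintro ⟨hd, hne⟩
        exact ⟨⟨Nat.pos_of_dvd_of_pos hd (by omega), (Nat.le_of_dvd (by omega) hd).trans hh.2⟩, hd⟩
      · rintro ⟨_, hd⟩
        exact ⟨hd, by omega⟩
    rw [h0, sq, sum_mul_sum, ← sum_product']
    apply sum_congr rfl
    rintro ⟨a, b⟩ _
    by_cases ha : a ∣ h <;> by_cases hb : b ∣ h <;> simp [ha, hb]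
  rw [sum_congr rfl h1, sum_comm]
  have h2 : ∀ z ∈ (Icc 1 Y) ×ˢ (Icc 1 Y), ∑ h ∈ Icc 1 Y,
      (if (z.1 ∣ h ∧ z.2 ∣ h) then (1 : ℝ) / (z.1 : ℝ) * (1 / (z.2 : ℝ)) else 0)
      ≤ (Y : ℝ) * ((Nat.gcd z.1 z.2 : ℝ) / ((z.1 : ℝ) ^ 2 * (z.2 : ℝ) ^ 2)) := by
    rintro ⟨a, b⟩ hz
    rw [mem_product, mem_Icc, mem_Icc] at hz
    simp only at *
    obtain ⟨⟨ha1, _⟩, hb1, _⟩ := hz
    rw [← sum_filter, sum_const, nsmul_eq_mul]
    have hset : filter (fun h => a ∣ h ∧ b ∣ h) (Icc 1 Y) = {h ∈ Ioc 0 Y | Nat.lcm a b ∣ h} := by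
      ext h
      simp only [mem_filter, mem_Icc, mem_Ioc, Nat.lcm_dvd_iff]
      constructor
      · rintro ⟨⟨h1, h2⟩, h3⟩; exact ⟨⟨by omega, h2⟩, h3⟩
      · rintro ⟨⟨h1, h2⟩, h3⟩; exact ⟨⟨by omega, h2⟩, h3⟩
    rw [hset, Nat.Ioc_filter_dvd_card_eq_div]
    have hlpos : 0 < Nat.lcm a b := Nat.lcm_pos (by omega) (by omega)
    have h3 : ((Y / Nat.lcm a b : ℕ) : ℝ) ≤ (Y : ℝ) / (Nat.lcm a b : ℝ) := Nat.cast_div_le
    have hgl : (Nat.gcd a b : ℝ) * (Nat.lcm a b : ℝ) = (a : ℝ) * b := by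
      rw [← Nat.cast_mul, ← Nat.cast_mul, Nat.gcd_mul_lcm]
    have ha0 : (0 : ℝ) < a := by exact_mod_cast (by omega : 0 < a)
    have hb0 : (0 : ℝ) < b := by exact_mod_cast (by omega : 0 < b)
    have hl0 : (0 : ℝ) < (Nat.lcm a b : ℝ) := by exact_mod_cast hlpos
    have h4 : (Y : ℝ) / (Nat.lcm a b : ℝ) * (1 / (a : ℝ) * (1 / (b : ℝ)))
        = (Y : ℝ) * ((Nat.gcd a b : ℝ) / ((a : ℝ) ^ 2 * (b : ℝ) ^ 2)) := by
      rw [div_mul_eq_mul_div, div_eq_iff hl0.ne']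
      have : (Y : ℝ) * ((Nat.gcd a b : ℝ) / ((a : ℝ) ^ 2 * (b : ℝ) ^ 2)) * (Nat.lcm a b : ℝ)
          = (Y : ℝ) * (((Nat.gcd a b : ℝ) * (Nat.lcm a b : ℝ)) / ((a : ℝ) ^ 2 * (b : ℝ) ^ 2)) := by
        ring
      rw [this, hgl]
      field_simp
    rw [← h4]
    apply mul_le_mul_of_nonneg_right h3
    positivity
  refine (sum_le_sum h2).trans ?_
  rw [← mul_sum, mul_comm]
  apply mul_le_mul_of_nonneg_right _ (by positivity)
  -- group by the gcd
  have h5 : ∑ z ∈ (Icc 1 Y) ×ˢ (Icc 1 Y), ((Nat.gcd z.1 z.2 : ℝ) / ((z.1 : ℝ) ^ 2 * (z.2 : ℝ) ^ 2))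
      ≤ ∑ w ∈ (Icc 1 Y) ×ˢ ((Icc 1 Y) ×ˢ (Icc 1 Y)),
        (1 : ℝ) / (w.1 : ℝ) ^ 2 * (1 / (w.2.1 : ℝ) ^ 2 * (1 / (w.2.2 : ℝ) ^ 2)) := by
    apply sum_le_sum_of_injOn' _ _ (fun z : ℕ × ℕ => (Nat.gcd z.1 z.2,
      (z.1 / Nat.gcd z.1 z.2, z.2 / Nat.gcd z.1 z.2)))
    · rintro ⟨a, b⟩ hz
      rw [mem_product, mem_Icc, mem_Icc] at hz
      simp only at *
      obtain ⟨⟨ha1, haY⟩, hb1, hbY⟩ := hz
      have hgpos : 0 < Nat.gcd a b := Nat.gcd_pos_of_pos_left _ (by omega)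
      rw [mem_product, mem_product, mem_Icc, mem_Icc, mem_Icc]
      refine ⟨⟨hgpos, (Nat.gcd_le_left b (by omega)).trans haY⟩, ⟨?_, ?_⟩, ?_, ?_⟩
      · exact Nat.div_pos (Nat.gcd_le_left b (by omega)) hgpos
      · exact (Nat.div_le_self _ _).trans haY
      · exact Nat.div_pos (Nat.gcd_le_right a (by omega)) hgpos
      · exact (Nat.div_le_self _ _).trans hbY
    · rintro ⟨a, b⟩ _ ⟨a', b'⟩ _ hzz
      simp only [Prod.mk.injEq] at hzz
      obtain ⟨hg, ha, hb⟩ := hzz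
      have e1 : a = a' := by
        calc a = Nat.gcd a b * (a / Nat.gcd a b) :=
              (Nat.mul_div_cancel' (Nat.gcd_dvd_left a b)).symm
          _ = Nat.gcd a' b' * (a' / Nat.gcd a' b') := by rw [ha, hg]
          _ = a' := Nat.mul_div_cancel' (Nat.gcd_dvd_left a' b')
      have e2 : b = b' := by
        calc b = Nat.gcd a b * (b / Nat.gcd a b) :=
              (Nat.mul_div_cancel' (Nat.gcd_dvd_right a b)).symm
          _ = Nat.gcd a' b' * (b' / Nat.gcd a' b') := by rw [hb, hg]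
          _ = b' := Nat.mul_div_cancel' (Nat.gcd_dvd_right a' b')
      rw [e1, e2]
    · rintro ⟨a, b⟩ hz
      rw [mem_product, mem_Icc, mem_Icc] at hz
      simp only at *
      obtain ⟨⟨ha1, haY⟩, hb1, hbY⟩ := hz
      have hgpos : 0 < Nat.gcd a b := Nat.gcd_pos_of_pos_left _ (by omega)
      have hg1 : (1 : ℝ) ≤ (Nat.gcd a b : ℝ) := by exact_mod_cast hgpos
      have ha' : 0 < a / Nat.gcd a b := Nat.div_pos (Nat.gcd_le_left b (by omega)) hgpos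
      have hb' : 0 < b / Nat.gcd a b := Nat.div_pos (Nat.gcd_le_right a (by omega)) hgpos
      have e1 : (a : ℝ) = (Nat.gcd a b : ℝ) * ((a / Nat.gcd a b : ℕ) : ℝ) := by
        rw [← Nat.cast_mul, Nat.mul_div_cancel' (Nat.gcd_dvd_left a b)]
      have e2 : (b : ℝ) = (Nat.gcd a b : ℝ) * ((b / Nat.gcd a b : ℕ) : ℝ) := by
        rw [← Nat.cast_mul, Nat.mul_div_cancel' (Nat.gcd_dvd_right a b)]
      have hu : (0 : ℝ) < ((a / Nat.gcd a b : ℕ) : ℝ) := by exact_mod_cast ha'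
      have hv : (0 : ℝ) < ((b / Nat.gcd a b : ℕ) : ℝ) := by exact_mod_cast hb'
      set g : ℝ := (Nat.gcd a b : ℝ)
      set u : ℝ := ((a / Nat.gcd a b : ℕ) : ℝ)
      set v : ℝ := ((b / Nat.gcd a b : ℕ) : ℝ)
      rw [e1, e2]
      have e3 : g / ((g * u) ^ 2 * (g * v) ^ 2) = 1 / g ^ 3 * (1 / u ^ 2 * (1 / v ^ 2)) := by
        field_simp
      rw [e3]
      apply mul_le_mul_of_nonneg_right _ (by positivity)
      apply one_div_le_one_div_of_le (by positivity)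
      exact pow_le_pow_right₀ hg1 (by norm_num)
    · intro z _
      positivity
  have h6 : ∑ w ∈ (Icc 1 Y) ×ˢ ((Icc 1 Y) ×ˢ (Icc 1 Y)),
        (1 : ℝ) / (w.1 : ℝ) ^ 2 * (1 / (w.2.1 : ℝ) ^ 2 * (1 / (w.2.2 : ℝ) ^ 2))
      = (∑ m ∈ Icc 1 Y, (1 : ℝ) / (m : ℝ) ^ 2) * ((∑ m ∈ Icc 1 Y, (1 : ℝ) / (m : ℝ) ^ 2) *
        (∑ m ∈ Icc 1 Y, (1 : ℝ) / (m : ℝ) ^ 2)) := by
    rw [sum_mul_sum, ← sum_product', sum_mul_sum, ← sum_product']
  have h7 := sum_inv_sq_le Y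
  have h8 : 0 ≤ ∑ m ∈ Icc 1 Y, (1 : ℝ) / (m : ℝ) ^ 2 := sum_nonneg fun m _ => by positivity
  rw [h6] at h5
  refine h5.trans ?_
  calc _ ≤ (2 : ℝ) * (2 * 2) := by gcongr
    _ = 8 := by norm_num

end Pool.Agent.Work.MP_484fb8_nt
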