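import Mathlib
import Pool.Agent.Work.MP_484fb8_nt.Energy

/-!
# Combinatorics: additive energy and the number of well represented integers
-/

set_option autoImplicit false

open Finset Nat

namespace Pool.Agent.Work.MP_484fb8_nt

/-- Quadruples `p₁ + q₁ = p₂ + q₂`. -/
def energy (P Q : Finset ℕ) : Finset ((ℕ × ℕ) × (ℕ × ℕ)) :=
  {z ∈ (P ×ˢ Q) ×ˢ (P ×ˢ Q) | z.1.1 + z.1.2 = z.2.1 + z.2.2}

lemma energy_le (P Q : Finset ℕ) (Y : ℕ) (hP : ∀ p ∈ P, p ≤ Y) :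
    #(energy P Q) ≤ #P * #Q +
      2 * ∑ h ∈ Icc 1 Y, #{p ∈ P | p + h ∈ P} * #{q ∈ Q | q + h ∈ Q} := by
  classical
  set A := (energy P Q).filter (fun z => z.1.1 = z.2.1)
  set B := (energy P Q).filter (fun z => z.1.1 < z.2.1)
  set B' := (energy P Q).filter (fun z => z.2.1 < z.1.1)
  have hcover : energy P Q ⊆ A ∪ (B ∪ B') := by
    intro z hz
    rw [mem_union, mem_union, mem_filter, mem_filter, mem_filter]
    rcases lt_trichotomy z.1.1 z.2.1 with h | h | h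
    · exact Or.inr (Or.inl ⟨hz, h⟩)
    · exact Or.inl ⟨hz, h⟩
    · exact Or.inr (Or.inr ⟨hz, h⟩)
  have hA : #A ≤ #P * #Q := by
    rw [← card_product]
    apply card_le_card_of_injOn (fun z => z.1)
    · intro z hz
      simp only [A, energy, coe_filter, Set.mem_ofPred_eq, mem_filter, mem_product] at hz
      simp only [coe_product, Set.mem_prod, mem_coe]
      exact hz.1.1.1
    · rintro ⟨⟨a, b⟩, ⟨c, d⟩⟩ hz ⟨⟨a', b'⟩, ⟨c', d'⟩⟩ hz' hzz
      simp only [A, energy, coe_filter, Set.mem_ofPred_eq, mem_filter, mem_product] at hz hz'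
      simp only [Prod.mk.injEq] at hzz ⊢
      obtain ⟨⟨_, h1⟩, h2⟩ := hz
      obtain ⟨⟨_, h1'⟩, h2'⟩ := hz'
      omega
  have hsum : ∑ h ∈ Icc 1 Y, #{p ∈ P | p + h ∈ P} * #{q ∈ Q | q + h ∈ Q}
      = #((Icc 1 Y).sigma (fun h => {p ∈ P | p + h ∈ P} ×ˢ {q ∈ Q | q + h ∈ Q})) := by
    rw [card_sigma]
    apply sum_congr rfl
    intro h _
    rw [card_product]
  have hB : #B ≤ ∑ h ∈ Icc 1 Y, #{p ∈ P | p + h ∈ P} * #{q ∈ Q | q + h ∈ Q} := by
    rw [hsum]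
    apply card_le_card_of_injOn (fun z => (⟨z.2.1 - z.1.1, (z.1.1, z.2.2)⟩ : (_ : ℕ) × (ℕ × ℕ)))
    · rintro ⟨⟨a, b⟩, ⟨c, d⟩⟩ hz
      simp only [B, energy, coe_filter, Set.mem_ofPred_eq, mem_filter, mem_product] at hz
      obtain ⟨⟨⟨⟨ha, hb⟩, hc, hd⟩, h1⟩, h2⟩ := hz
      simp only [mem_coe, mem_sigma, mem_product, mem_filter, mem_Icc]
      have hcY := hP c hc
      refine ⟨⟨by omega, by omega⟩, ⟨ha, ?_⟩, hd, ?_⟩
      · have : a + (c - a) = c := by omega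
        rw [this]; exact hc
      · have : d + (c - a) = b := by omega
        rw [this]; exact hb
    · rintro ⟨⟨a, b⟩, ⟨c, d⟩⟩ hz ⟨⟨a', b'⟩, ⟨c', d'⟩⟩ hz' hzz
      simp only [B, energy, coe_filter, Set.mem_ofPred_eq, mem_filter, mem_product] at hz hz'
      simp only [Sigma.mk.injEq] at hzz
      obtain ⟨hh, hz3⟩ := hzz
      have hz3 := eq_of_heq hz3
      simp only [Prod.mk.injEq] at hz3 ⊢
      obtain ⟨⟨_, h1⟩, h2⟩ := hz
      obtain ⟨⟨_, h1'⟩, h2'⟩ := hz'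
      omega
  have hB' : #B' ≤ ∑ h ∈ Icc 1 Y, #{p ∈ P | p + h ∈ P} * #{q ∈ Q | q + h ∈ Q} := by
    rw [hsum]
    apply card_le_card_of_injOn (fun z => (⟨z.1.1 - z.2.1, (z.2.1, z.1.2)⟩ : (_ : ℕ) × (ℕ × ℕ)))
    · rintro ⟨⟨a, b⟩, ⟨c, d⟩⟩ hz
      simp only [B', energy, coe_filter, Set.mem_ofPred_eq, mem_filter, mem_product] at hz
      obtain ⟨⟨⟨⟨ha, hb⟩, hc, hd⟩, h1⟩, h2⟩ := hz
      simp only [mem_coe, mem_sigma, mem_product, mem_filter, mem_Icc]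
      have haY := hP a ha
      refine ⟨⟨by omega, by omega⟩, ⟨hc, ?_⟩, hb, ?_⟩
      · have : c + (a - c) = a := by omega
        rw [this]; exact ha
      · have : b + (a - c) = d := by omega
        rw [this]; exact hd
    · rintro ⟨⟨a, b⟩, ⟨c, d⟩⟩ hz ⟨⟨a', b'⟩, ⟨c', d'⟩⟩ hz' hzz
      simp only [B', energy, coe_filter, Set.mem_ofPred_eq, mem_filter, mem_product] at hz hz'
      simp only [Sigma.mk.injEq] at hzz
      obtain ⟨hh, hz3⟩ := hzz
      have hz3 := eq_of_heq hz3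
      simp only [Prod.mk.injEq] at hz3 ⊢
      obtain ⟨⟨_, h1⟩, h2⟩ := hz
      obtain ⟨⟨_, h1'⟩, h2'⟩ := hz'
      omega
  calc #(energy P Q) ≤ #(A ∪ (B ∪ B')) := card_le_card hcover
    _ ≤ #A + (#B + #B') := (card_union_le _ _).trans (Nat.add_le_add_left (card_union_le _ _) _)
    _ ≤ _ := by omega

/-- The number of representations `m = p + q`. -/
def rep (P Q : Finset ℕ) (m : ℕ) : ℕ := #{z ∈ P ×ˢ Q | z.1 + z.2 = m}

lemma sum_rep_sq_le (P Q S : Finset ℕ) :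
    ∑ m ∈ S, (rep P Q m) ^ 2 ≤ #(energy P Q) := by
  classical
  have h1 : ∑ m ∈ S, (rep P Q m) ^ 2
      = #(S.sigma (fun m => {z ∈ P ×ˢ Q | z.1 + z.2 = m} ×ˢ {z ∈ P ×ˢ Q | z.1 + z.2 = m})) := by
    rw [card_sigma]
    apply sum_congr rfl
    intro m _
    rw [card_product, rep, sq]
  rw [h1]
  apply card_le_card_of_injOn (fun z => z.2)
  · rintro ⟨m, z⟩ hz
    simp only [coe_sigma, mem_coe, Set.mem_sigma_iff, mem_product, mem_filter] at hz
    simp only [energy, mem_coe, mem_filter, mem_product]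
    obtain ⟨_, ⟨h1, h2⟩, h3, h4⟩ := hz
    exact ⟨⟨h1, h3⟩, by omega⟩
  · rintro ⟨m, z⟩ hz ⟨m', z'⟩ hz' hzz
    simp only [coe_sigma, mem_coe, Set.mem_sigma_iff, mem_product, mem_filter] at hz hz'
    simp only at hzz
    subst hzz
    obtain ⟨_, ⟨h1, h2⟩, h3, h4⟩ := hz
    obtain ⟨_, ⟨h1', h2'⟩, h3', h4'⟩ := hz'
    have : m = m' := by omega
    subst this
    rfl

/-- Paley-Zygmund type lower bound. -/
lemma many_reps (P Q M : Finset ℕ) (hM : ∀ p ∈ P, ∀ q ∈ Q, p + q ∈ M) (T : ℝ)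
    (hT : 2 * T * #M ≤ #P * #Q) :
    ((#P : ℝ) * #Q) ^ 2 ≤ 4 * #{m ∈ M | T ≤ rep P Q m} * #(energy P Q) := by
  classical
  set S := {m ∈ M | T ≤ rep P Q m} with hS
  have h1 : (#P * #Q : ℕ) = ∑ m ∈ M, rep P Q m := by
    rw [← card_product]
    apply Finset.card_eq_sum_card_fiberwise
    rintro ⟨p, q⟩ hz
    rw [mem_coe, mem_product] at hz
    exact hM p hz.1 q hz.2
  have h2 : ((#P : ℝ) * #Q) = ∑ m ∈ M, (rep P Q m : ℝ) := by
    rw [← Nat.cast_mul, h1]; push_cast; rfl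
  have h3 : ∑ m ∈ M, (rep P Q m : ℝ) = ∑ m ∈ S, (rep P Q m : ℝ) +
      ∑ m ∈ M with ¬ (T ≤ rep P Q m), (rep P Q m : ℝ) := by
    rw [hS, sum_filter_add_sum_filter_not]
  have hPQ : (0 : ℝ) ≤ (#P : ℝ) * #Q := by positivity
  have h4 : 2 * ∑ m ∈ M with ¬ (T ≤ rep P Q m), (rep P Q m : ℝ) ≤ (#P : ℝ) * #Q := by
    by_cases hT0 : 0 ≤ T
    · have : ∑ m ∈ M with ¬ (T ≤ rep P Q m), (rep P Q m : ℝ) ≤
          ∑ m ∈ M with ¬ (T ≤ rep P Q m), T := by
        apply sum_le_sum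
        intro m hm
        rw [mem_filter] at hm
        exact (not_le.mp hm.2).le
      rw [sum_const, nsmul_eq_mul] at this
      have h5 : (#{m ∈ M | ¬ (T ≤ rep P Q m)} : ℝ) ≤ #M := by
        exact_mod_cast card_filter_le _ _
      have h6 : (#{m ∈ M | ¬ (T ≤ rep P Q m)} : ℝ) * T ≤ #M * T :=
        mul_le_mul_of_nonneg_right h5 hT0
      nlinarith
    · have : ∑ m ∈ M with ¬ (T ≤ rep P Q m), (rep P Q m : ℝ) ≤ 0 := by
        apply sum_nonpos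
        intro m hm
        rw [mem_filter] at hm
        exfalso
        apply hm.2
        push Not at hT0
        have : (0 : ℝ) ≤ rep P Q m := by positivity
        linarith
      linarith
  have h5 : (#P : ℝ) * #Q ≤ 2 * ∑ m ∈ S, (rep P Q m : ℝ) := by
    rw [← h2] at h3
    linarith
  have h6 : (∑ m ∈ S, (rep P Q m : ℝ)) ^ 2 ≤ #S * ∑ m ∈ S, (rep P Q m : ℝ) ^ 2 := by
    exact sq_sum_le_card_mul_sum_sq
  have h7 : (∑ m ∈ S, (rep P Q m : ℝ) ^ 2) ≤ #(energy P Q) := by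
    have := sum_rep_sq_le P Q S
    exact_mod_cast this
  calc ((#P : ℝ) * #Q) ^ 2 ≤ (2 * ∑ m ∈ S, (rep P Q m : ℝ)) ^ 2 :=
        pow_le_pow_left₀ hPQ h5 2
    _ = 4 * (∑ m ∈ S, (rep P Q m : ℝ)) ^ 2 := by ring
    _ ≤ 4 * (#S * ∑ m ∈ S, (rep P Q m : ℝ) ^ 2) := by linarith
    _ ≤ 4 * (#S * #(energy P Q)) := by
        apply mul_le_mul_of_nonneg_left _ (by norm_num)
        exact mul_le_mul_of_nonneg_left h7 (by positivity)
    _ = _ := by ring

/-- The energy of two sets of odd primes. -/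
lemma energy_primes (P Q : Finset ℕ) (Y X : ℕ) (hY : 2 ≤ Y) (hX : 2 ≤ X)
    (hP : ∀ p ∈ P, p.Prime ∧ p ≤ Y ∧ Odd p) (hQ : ∀ q ∈ Q, q.Prime ∧ q ≤ X) :
    (#(energy P Q) : ℝ) ≤ #P * #Q + 16 * 8224 ^ 2 *
      ((Y / (Real.log Y) ^ 2) * (X / (Real.log X) ^ 2) * Y) := by
  have h1 := energy_le P Q Y (fun p hp => (hP p hp).2.1)
  have h2 : ∀ h ∈ Icc 1 Y, ((#{p ∈ P | p + h ∈ P} * #{q ∈ Q | q + h ∈ Q} : ℕ) : ℝ)
      ≤ 8224 ^ 2 * ((Y / (Real.log Y) ^ 2) * (X / (Real.log X) ^ 2)) * (FF h) ^ 2 := by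
    intro h hh
    rw [mem_Icc] at hh
    by_cases heven : Even h
    · have a1 : #{p ∈ P | p + h ∈ P} ≤ pairCount Y h := by
        unfold pairCount
        apply card_le_card
        intro p hp
        rw [mem_filter] at hp
        rw [mem_filter, mem_Ioc]
        exact ⟨⟨(hP p hp.1).1.pos, (hP p hp.1).2.1⟩, (hP p hp.1).1, (hP _ hp.2).1⟩
      have a2 : #{q ∈ Q | q + h ∈ Q} ≤ pairCount X h := by
        unfold pairCount
        apply card_le_card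
        intro p hp
        rw [mem_filter] at hp
        rw [mem_filter, mem_Ioc]
        exact ⟨⟨(hQ p hp.1).1.pos, (hQ p hp.1).2⟩, (hQ p hp.1).1, (hQ _ hp.2).1⟩
      have b1 := pairCount_bound Y h hY heven (by omega)
      have b2 := pairCount_bound X h hX heven (by omega)
      have c1 : ((#{p ∈ P | p + h ∈ P} : ℕ) : ℝ) ≤ 8224 * FF h * (Y / (Real.log Y) ^ 2) :=
        le_trans (by exact_mod_cast a1) b1
      have c2 : ((#{q ∈ Q | q + h ∈ Q} : ℕ) : ℝ) ≤ 8224 * FF h * (X / (Real.log X) ^ 2) :=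
        le_trans (by exact_mod_cast a2) b2
      push_cast
      have hF := FF_pos h (by omega)
      calc (#{p ∈ P | p + h ∈ P} : ℝ) * (#{q ∈ Q | q + h ∈ Q} : ℝ)
          ≤ (8224 * FF h * (Y / (Real.log Y) ^ 2)) * (8224 * FF h * (X / (Real.log X) ^ 2)) := by
            apply mul_le_mul c1 c2 (by positivity) (by positivity)
        _ = _ := by ring
    · have : #{p ∈ P | p + h ∈ P} = 0 := by
        rw [Finset.card_eq_zero, filter_eq_empty_iff]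
        intro p hp hp'
        have o1 := (hP p hp).2.2
        have o2 := (hP _ hp').2.2
        have : Even (p + h) := o1.add_odd (Nat.not_even_iff_odd.mp heven)
        exact (Nat.not_even_iff_odd.mpr o2) this
      rw [this, zero_mul]
      push_cast
      positivity
  have h3 : ((∑ h ∈ Icc 1 Y, #{p ∈ P | p + h ∈ P} * #{q ∈ Q | q + h ∈ Q} : ℕ) : ℝ)
      ≤ 8224 ^ 2 * ((Y / (Real.log Y) ^ 2) * (X / (Real.log X) ^ 2)) * (8 * Y) := by
    rw [Nat.cast_sum]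
    refine (sum_le_sum h2).trans ?_
    rw [← mul_sum]
    apply mul_le_mul_of_nonneg_left (sum_FF_sq Y) (by positivity)
  have h4 : (#(energy P Q) : ℝ) ≤ ((#P * #Q + 2 * ∑ h ∈ Icc 1 Y, #{p ∈ P | p + h ∈ P} *
      #{q ∈ Q | q + h ∈ Q} : ℕ) : ℝ) := by exact_mod_cast h1
  rw [Nat.cast_add, Nat.cast_mul, Nat.cast_mul] at h4
  push_cast at h4 h3
  calc (#(energy P Q) : ℝ) ≤ _ := h4
    _ ≤ #P * #Q + 2 * (8224 ^ 2 * ((Y / (Real.log Y) ^ 2) * (X / (Real.log X) ^ 2)) * (8 * Y)) := by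
        linarith
    _ = _ := by ring

end Pool.Agent.Work.MP_484fb8_nt
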