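import Mathlib
import Pool.Agent.Work.MP_484fb8_nt.Count
import Pool.Agent.Work.MP_484fb8_nt.Cheb

/-!
# A positive proportion of each primorial interval is representable
-/

set_option autoImplicit false

open Finset Nat

namespace Pool.Agent.Work.MP_484fb8_nt

/-- The statement for one `n` and one constant `c`. -/
def Good (c : ℝ) (n : ℕ) : Prop :=
  c * #(evensIn (n + 1)) ≤ #{m ∈ evensIn (n + 1) |
    c * (prml n / (Real.log (prml n)) ^ 2) ≤ primorialReps n m}

lemma Good.mono {c c' : ℝ} {n : ℕ} (h : Good c n) (hc : c' ≤ c) : Good c' n := by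
  unfold Good at *
  have h1 : c' * #(evensIn (n + 1)) ≤ c * #(evensIn (n + 1)) :=
    mul_le_mul_of_nonneg_right hc (by positivity)
  refine h1.trans (h.trans ?_)
  have : #{m ∈ evensIn (n + 1) | c * (prml n / (Real.log (prml n)) ^ 2) ≤ primorialReps n m}
      ≤ #{m ∈ evensIn (n + 1) | c' * (prml n / (Real.log (prml n)) ^ 2) ≤ primorialReps n m} := by
    apply card_le_card
    intro m hm
    rw [mem_filter] at hm ⊢
    refine ⟨hm.1, le_trans ?_ hm.2⟩
    apply mul_le_mul_of_nonneg_right hc (by positivity)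
  exact_mod_cast this

lemma exists_rep (n : ℕ) (hn : 1 ≤ n) : ∃ m ∈ evensIn (n + 1), 1 ≤ primorialReps n m := by
  have key : ∀ m p q : ℕ, p ∈ primesIn n → q ∈ primesIn n ∪ primesIn (n + 1) → p + q = m →
      1 ≤ primorialReps n m := by
    intro m p q hp hq hpq
    unfold primorialReps
    rw [Nat.one_le_iff_ne_zero]
    apply (Finset.card_pos.mpr ?_).ne'
    exact ⟨(p, q), by rw [mem_filter, mem_product]; exact ⟨⟨hp, hq⟩, hpq⟩⟩
  have h3 : ∀ k : ℕ, 1 ≤ k → 3 ≤ Nat.nth Nat.Prime k := by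
    intro k hk
    have := nth_prime_ge k
    omega
  rcases Nat.eq_or_lt_of_le hn with h1 | h1
  · -- n = 1
    subst h1
    have hp1 : prml 1 = 2 := by
      have := prml_succ 0
      rw [prml_zero, Nat.nth_prime_zero_eq_two] at this
      simpa using this
    have hp2 : prml 2 = 6 := by
      have := prml_succ 1
      rw [hp1, Nat.nth_prime_one_eq_three] at this
      simpa using this
    refine ⟨4, ?_, key 4 2 2 ?_ ?_ rfl⟩
    · unfold evensIn primorialInterval
      rw [mem_filter, mem_Icc]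
      simp only [Nat.add_sub_cancel]
      rw [show 1 + 1 = 2 from rfl, hp1, hp2]
      exact ⟨⟨by norm_num, by norm_num⟩, by decide⟩
    · unfold primesIn primorialInterval
      rw [mem_filter, mem_Icc]
      simp only [Nat.sub_self]
      rw [prml_zero, hp1]
      exact ⟨⟨by norm_num, by norm_num⟩, Nat.prime_two⟩
    · rw [mem_union]
      left
      unfold primesIn primorialInterval
      rw [mem_filter, mem_Icc]
      simp only [Nat.sub_self]
      rw [prml_zero, hp1]
      exact ⟨⟨by norm_num, by norm_num⟩, Nat.prime_two⟩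
  · -- n ≥ 2
    obtain ⟨k, rfl⟩ : ∃ k, n = k + 1 := ⟨n - 1, by omega⟩
    have hk : 1 ≤ k := by omega
    have hZ : 2 ≤ prml k := by have := le_prml k; omega
    have hY : prml (k + 1) = prml k * Nat.nth Nat.Prime k := prml_succ k
    have hX : prml (k + 1 + 1) = prml (k + 1) * Nat.nth Nat.Prime (k + 1) := prml_succ (k + 1)
    obtain ⟨p, hp, hp1, hp2⟩ := Nat.exists_prime_lt_and_le_two_mul (prml k) (by omega)
    obtain ⟨q, hq, hq1, hq2⟩ := Nat.exists_prime_lt_and_le_two_mul (prml (k + 1))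
      (prml_pos (k + 1)).ne'
    have hYZ : 3 * prml k ≤ prml (k + 1) := by
      rw [hY]; have := h3 k hk; nlinarith
    have hXY : 3 * prml (k + 1) ≤ prml (k + 1 + 1) := by
      rw [hX]; have := h3 (k + 1) (by omega); nlinarith
    have hpm : p ∈ primesIn (k + 1) := by
      unfold primesIn primorialInterval
      rw [mem_filter, mem_Icc]
      simp only [Nat.add_sub_cancel]
      exact ⟨⟨by omega, by omega⟩, hp⟩
    have hqm : q ∈ primesIn (k + 1 + 1) := by
      unfold primesIn primorialInterval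
      rw [mem_filter, mem_Icc]
      simp only [Nat.add_sub_cancel]
      exact ⟨⟨by omega, by omega⟩, hq⟩
    refine ⟨p + q, ?_, key _ p q hpm (mem_union_right _ hqm) rfl⟩
    unfold evensIn primorialInterval
    rw [mem_filter, mem_Icc]
    simp only [Nat.add_sub_cancel]
    refine ⟨⟨by omega, by omega⟩, ?_⟩
    have o1 : Odd p := hp.odd_of_ne_two (by omega)
    have o2 : Odd q := hq.odd_of_ne_two (by omega)
    exact o1.add_odd o2

lemma good_small (n : ℕ) (hn : 1 ≤ n) : ∃ c : ℝ, 0 < c ∧ Good c n := by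
  obtain ⟨m, hm, hr⟩ := exists_rep n hn
  set A : ℝ := ((#(evensIn (n + 1)) : ℕ) : ℝ) with hA
  set B : ℝ := prml n / (Real.log (prml n)) ^ 2 with hB
  have hA0 : 0 ≤ A := by positivity
  have hB0 : 0 ≤ B := by positivity
  refine ⟨1 / (A + B + 1), by positivity, ?_⟩
  unfold Good
  rw [← hA, ← hB]
  have h1 : 1 / (A + B + 1) * A ≤ 1 := by
    rw [div_mul_eq_mul_div, one_mul, div_le_one (by positivity)]
    linarith
  have h2 : 1 / (A + B + 1) * B ≤ 1 := by
    rw [div_mul_eq_mul_div, one_mul, div_le_one (by positivity)]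
    linarith
  have h3 : 1 ≤ #{m ∈ evensIn (n + 1) | 1 / (A + B + 1) * B ≤ primorialReps n m} := by
    rw [Nat.one_le_iff_ne_zero]
    apply (Finset.card_pos.mpr ?_).ne'
    refine ⟨m, ?_⟩
    rw [mem_filter]
    refine ⟨hm, h2.trans ?_⟩
    exact_mod_cast hr
  have h4 : (1 : ℝ) ≤ #{m ∈ evensIn (n + 1) | 1 / (A + B + 1) * B ≤ primorialReps n m} := by
    exact_mod_cast h3
  linarith

lemma good_upto (N : ℕ) : ∃ c : ℝ, 0 < c ∧ ∀ n, 1 ≤ n → n < N → Good c n := by
  induction N with
  | zero => exact ⟨1, one_pos, fun n _ h => absurd h (Nat.not_lt_zero n)⟩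
  | succ N ih =>
    obtain ⟨c, hc, h⟩ := ih
    by_cases hN : 1 ≤ N
    · obtain ⟨c', hc', h'⟩ := good_small N hN
      refine ⟨min c c', lt_min hc hc', fun n hn hlt => ?_⟩
      rcases Nat.lt_succ_iff_lt_or_eq.mp hlt with h1 | h1
      · exact (h n hn h1).mono (min_le_left _ _)
      · subst h1; exact h'.mono (min_le_right _ _)
    · exact ⟨c, hc, fun n hn hlt => by omega⟩

lemma primeCounting_eq_card (N : ℕ) : Nat.primeCounting N = #{p ∈ range (N + 1) | p.Prime} := by
  unfold Nat.primeCounting Nat.primeCounting'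
  rw [Nat.count_eq_card_filter_range]

lemma good_large (k : ℕ) (hk : 200 ≤ k) : Good (1 / (4096 * 5000000000)) (k + 1) := by
  have hpk : 60 ≤ Nat.nth Nat.Prime k := by have := nth_prime_ge k; omega
  have hpk1 : 120 ≤ Nat.nth Nat.Prime (k + 1) := by have := nth_prime_ge (k + 1); omega
  have hZ200 : 200 ≤ prml k := by have := le_prml k; omega
  have hYeq : prml (k + 1) = prml k * Nat.nth Nat.Prime k := prml_succ k
  have hXeq : prml (k + 1 + 1) = prml (k + 1) * Nat.nth Nat.Prime (k + 1) := prml_succ (k + 1)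
  have hlogYZ := log_prml_succ k (by omega)
  have hlogXY := log_prml_succ (k + 1) (by omega)
  -- names
  obtain ⟨Z, hZ⟩ : ∃ Z, Z = prml k := ⟨_, rfl⟩
  obtain ⟨Y, hY⟩ : ∃ Y, Y = prml (k + 1) := ⟨_, rfl⟩
  obtain ⟨X, hX⟩ : ∃ X, X = prml (k + 1 + 1) := ⟨_, rfl⟩
  obtain ⟨p, hp⟩ : ∃ p, p = Nat.nth Nat.Prime k := ⟨_, rfl⟩
  obtain ⟨p', hp'⟩ : ∃ p', p' = Nat.nth Nat.Prime (k + 1) := ⟨_, rfl⟩
  rw [← hp] at hpk hYeq
  rw [← hp'] at hpk1 hXeq
  rw [← hZ] at hZ200 hYeq hlogYZ
  rw [← hY] at hYeq hXeq hlogYZ hlogXY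
  rw [← hX] at hXeq hlogXY
  have hYZ : 60 * Z ≤ Y := by
    rw [hYeq, Nat.mul_comm 60 Z]; exact Nat.mul_le_mul_left Z hpk
  have hXY : 120 * Y ≤ X := by
    rw [hXeq, Nat.mul_comm 120 Y]; exact Nat.mul_le_mul_left Y hpk1
  have hZr : (200 : ℝ) ≤ Z := by exact_mod_cast hZ200
  have hYr : (60 : ℝ) * Z ≤ Y := by exact_mod_cast hYZ
  have hXr : (120 : ℝ) * Y ≤ X := by exact_mod_cast hXY
  have hlZ : 0 < Real.log Z := Real.log_pos (by linarith)
  have hlY : 0 < Real.log Y := Real.log_pos (by linarith)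
  have hlX : 0 < Real.log X := Real.log_pos (by linarith)
  -- the sets
  set P := primesIn (k + 1) with hPdef
  set Q := {q ∈ Icc (Y + 1) (X - Y) | q.Prime} with hQdef
  set M := evensIn (k + 1 + 1) with hMdef
  have hPmem : ∀ q, q ∈ P ↔ (Z + 1 ≤ q ∧ q ≤ Y + 1) ∧ q.Prime := by
    intro q
    rw [hPdef]
    unfold primesIn primorialInterval
    rw [mem_filter, mem_Icc]
    simp only [Nat.add_sub_cancel]
    rw [← hZ, ← hY]
  have hMmem : ∀ q, q ∈ M ↔ (Y + 1 ≤ q ∧ q ≤ X + 1) ∧ Even q := by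
    intro q
    rw [hMdef]
    unfold evensIn primorialInterval
    rw [mem_filter, mem_Icc]
    simp only [Nat.add_sub_cancel]
    rw [← hX, ← hY]
  have hQmem : ∀ q, q ∈ Q ↔ (Y + 1 ≤ q ∧ q ≤ X - Y) ∧ q.Prime := by
    intro q
    rw [hQdef, mem_filter, mem_Icc]
  -- cardinalities
  have hPcard : Nat.primeCounting Y ≤ Nat.primeCounting Z + #P := by
    rw [primeCounting_eq_card, primeCounting_eq_card]
    refine (card_le_card ?_).trans (card_union_le _ _)
    intro q hq
    rw [mem_filter, mem_range] at hq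
    rw [mem_union, mem_filter, mem_range, hPmem]
    by_cases h : q < Z + 1
    · exact Or.inl ⟨h, hq.2⟩
    · exact Or.inr ⟨⟨by omega, by omega⟩, hq.2⟩
  have hQcard : Nat.primeCounting (X - Y) ≤ Nat.primeCounting Y + #Q := by
    rw [primeCounting_eq_card, primeCounting_eq_card]
    refine (card_le_card ?_).trans (card_union_le _ _)
    intro q hq
    rw [mem_filter, mem_range] at hq
    rw [mem_union, mem_filter, mem_range, hQmem]
    by_cases h : q < Y + 1
    · exact Or.inl ⟨h, hq.2⟩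
    · exact Or.inr ⟨⟨by omega, by omega⟩, hq.2⟩
  have hPcard' : #P ≤ Nat.primeCounting (Y + 1) := by
    rw [primeCounting_eq_card]
    apply card_le_card
    intro q hq
    rw [hPmem] at hq
    rw [mem_filter, mem_range]
    exact ⟨by omega, hq.2⟩
  have hQcard' : #Q ≤ Nat.primeCounting X := by
    rw [primeCounting_eq_card]
    apply card_le_card
    intro q hq
    rw [hQmem] at hq
    rw [mem_filter, mem_range]
    exact ⟨by omega, hq.2⟩
  have hPcardR : (Nat.primeCounting Y : ℝ) ≤ Nat.primeCounting Z + #P := by exact_mod_cast hPcard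
  have hQcardR : (Nat.primeCounting (X - Y) : ℝ) ≤ Nat.primeCounting Y + #Q := by
    exact_mod_cast hQcard
  have hPcardR' : (#P : ℝ) ≤ Nat.primeCounting (Y + 1) := by exact_mod_cast hPcard'
  have hQcardR' : (#Q : ℝ) ≤ Nat.primeCounting X := by exact_mod_cast hQcard'
  -- analytic bounds
  have hZ0 : (0 : ℝ) < Z := by linarith
  have hY0 : (0 : ℝ) < Y := by linarith
  have hX0 : (0 : ℝ) < X := by linarith
  have hYlog0 : 0 < (Y : ℝ) / Real.log Y := div_pos hY0 hlY
  have hXlog0 : 0 < (X : ℝ) / Real.log X := div_pos hX0 hlX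
  have hZbound : (Z : ℝ) / Real.log Z ≤ (1 / 20) * (Y / Real.log Y) := by
    have h1 : (Z : ℝ) / Real.log Z ≤ (Y / 60) / (Real.log Y / 3) := by
      apply div_le_div₀ (by positivity) (by linarith) (by linarith) (by linarith)
    have h2 : ((Y : ℝ) / 60) / (Real.log Y / 3) = (1 / 20) * (Y / Real.log Y) := by
      field_simp
      ring
    linarith
  have hYbound : (Y : ℝ) / Real.log Y ≤ (1 / 40) * (X / Real.log X) := by
    have h1 : (Y : ℝ) / Real.log Y ≤ (X / 120) / (Real.log X / 3) := by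
      apply div_le_div₀ (by positivity) (by linarith) (by linarith) (by linarith)
    have h2 : ((X : ℝ) / 120) / (Real.log X / 3) = (1 / 40) * (X / Real.log X) := by
      field_simp
      ring
    linarith
  have hPlow : (1 / 4) * (Y / Real.log Y) ≤ (#P : ℝ) := by
    have h1 := pi_lower Y (by omega)
    have h2 := pi_upper Z (by omega)
    have h3 : (Y : ℝ) / (2 * Real.log Y) = (1 / 2) * (Y / Real.log Y) := by
      field_simp
    rw [h3] at h1
    linarith
  have hQlow : (1 / 8) * (X / Real.log X) ≤ (#Q : ℝ) := by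
    have h1 := pi_lower (X - Y) (by omega)
    have h2 := pi_upper Y (by omega)
    have hXYc : ((X - Y : ℕ) : ℝ) = (X : ℝ) - Y := by
      rw [Nat.cast_sub (by omega)]
    rw [hXYc] at h1
    have h3 : (1 / 4) * ((X : ℝ) / Real.log X) ≤ ((X : ℝ) - Y) / (2 * Real.log ((X : ℝ) - Y)) := by
      have hl : 0 < Real.log ((X : ℝ) - Y) := Real.log_pos (by linarith)
      have hl2 : Real.log ((X : ℝ) - Y) ≤ Real.log X :=
        Real.log_le_log (by linarith) (by linarith)
      have h4 : (1 / 4) * ((X : ℝ) / Real.log X) = (X / 2) / (2 * Real.log X) := by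
        field_simp
        ring
      rw [h4]
      apply div_le_div₀ (by linarith) (by linarith) (by linarith) (by linarith)
    linarith
  have hPup : (#P : ℝ) ≤ 10 * (Y / Real.log Y) := by
    have h1 := pi_upper (Y + 1) (by omega)
    push_cast at h1
    have hl : Real.log Y ≤ Real.log ((Y : ℝ) + 1) := Real.log_le_log (by linarith) (by linarith)
    have h2 : ((Y : ℝ) + 1) / Real.log ((Y : ℝ) + 1) ≤ (2 * Y) / Real.log Y := by
      apply div_le_div₀ (by linarith) (by linarith) hlY hl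
    have h3 : (2 * (Y : ℝ)) / Real.log Y = 2 * (Y / Real.log Y) := by ring
    rw [h3] at h2
    linarith
  have hQup : (#Q : ℝ) ≤ 5 * (X / Real.log X) := by
    have h1 := pi_upper X (by omega)
    linarith
  -- W
  obtain ⟨W, hW⟩ : ∃ W : ℝ, W = (Y / Real.log Y) ^ 2 * (X / (Real.log X) ^ 2) := ⟨_, rfl⟩
  have hW0 : 0 < W := by
    rw [hW]
    exact mul_pos (pow_pos hYlog0 2) (div_pos hX0 (pow_pos hlX 2))
  have hPsub : ∀ q ∈ P, q.Prime ∧ q ≤ Y + 1 ∧ Odd q := by
    intro q hq
    rw [hPmem] at hq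
    exact ⟨hq.2, hq.1.2, hq.2.odd_of_ne_two (by omega)⟩
  have hQsub : ∀ q ∈ Q, q.Prime ∧ q ≤ X := by
    intro q hq
    rw [hQmem] at hq
    exact ⟨hq.2, by omega⟩
  have hE := energy_primes P Q (Y + 1) X (by omega) (by omega) hPsub hQsub
  have hE2 : (#(energy P Q) : ℝ) ≤ 5000000000 * W := by
    have hl : Real.log Y ≤ Real.log ((Y + 1 : ℕ) : ℝ) := by
      push_cast
      exact Real.log_le_log (by linarith) (by linarith)
    have h1 : (((Y + 1 : ℕ) : ℝ) / (Real.log ((Y + 1 : ℕ) : ℝ)) ^ 2) *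
        (X / (Real.log X) ^ 2) * ((Y + 1 : ℕ) : ℝ) ≤ 4 * W := by
      have h2 : (((Y + 1 : ℕ) : ℝ) / (Real.log ((Y + 1 : ℕ) : ℝ)) ^ 2) ≤
          (2 * Y) / (Real.log Y) ^ 2 := by
        apply div_le_div₀ (by positivity) _ (pow_pos hlY 2)
          (pow_le_pow_left₀ hlY.le hl 2)
        push_cast; linarith
      have h3 : ((Y + 1 : ℕ) : ℝ) ≤ 2 * Y := by push_cast; linarith
      calc _ ≤ ((2 * Y) / (Real.log Y) ^ 2) * (X / (Real.log X) ^ 2) * (2 * Y) := by gcongr
        _ = 4 * W := by rw [hW]; ring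
    have h4 : (#P : ℝ) * #Q ≤ 600 * W := by
      have h5 : (#P : ℝ) * #Q ≤ (10 * (Y / Real.log Y)) * (5 * (X / Real.log X)) := by
        apply mul_le_mul hPup hQup (by positivity) (by positivity)
      have h6 : Real.log X ≤ 12 * (Y / Real.log Y) := by
        rw [← mul_div_assoc, le_div_iff₀ hlY]
        have h7 := log_le_two_sqrt Y (by linarith)
        have h8 : Real.sqrt Y * Real.sqrt Y = Y := Real.mul_self_sqrt (by linarith)
        have h9 : Real.log Y * Real.log Y ≤ 4 * Y := by
          calc Real.log Y * Real.log Y ≤ (2 * Real.sqrt Y) * (2 * Real.sqrt Y) :=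
                mul_le_mul h7 h7 hlY.le (by positivity)
            _ = 4 * (Real.sqrt Y * Real.sqrt Y) := by ring
            _ = 4 * Y := by rw [h8]
        calc Real.log X * Real.log Y ≤ (3 * Real.log Y) * Real.log Y :=
              mul_le_mul_of_nonneg_right hlogXY hlY.le
          _ = 3 * (Real.log Y * Real.log Y) := by ring
          _ ≤ 3 * (4 * Y) := mul_le_mul_of_nonneg_left h9 (by norm_num)
          _ = 12 * Y := by ring
      have h10 : (X : ℝ) / Real.log X = (X / (Real.log X) ^ 2) * Real.log X := by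
        field_simp
      calc (#P : ℝ) * #Q ≤ (10 * (Y / Real.log Y)) * (5 * (X / Real.log X)) := h5
        _ = 50 * (Y / Real.log Y) * ((X / (Real.log X) ^ 2) * Real.log X) := by
            rw [← h10]; ring
        _ ≤ 50 * (Y / Real.log Y) * ((X / (Real.log X) ^ 2) * (12 * (Y / Real.log Y))) := by
            gcongr
        _ = 600 * W := by rw [hW]; ring
    calc (#(energy P Q) : ℝ) ≤ _ := hE
      _ ≤ 600 * W + 16 * 8224 ^ 2 * (4 * W) := by
          apply add_le_add h4
          apply mul_le_mul_of_nonneg_left h1 (by norm_num)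
      _ = 4328587864 * W := by ring
      _ ≤ 5000000000 * W := mul_le_mul_of_nonneg_right (by norm_num) hW0.le
  -- the sums land in M
  have hM : ∀ p ∈ P, ∀ q ∈ Q, p + q ∈ M := by
    intro a ha b hb
    have ha' := hPsub a ha
    rw [hPmem] at ha
    rw [hQmem] at hb
    rw [hMmem]
    refine ⟨⟨by omega, by omega⟩, ?_⟩
    exact ha'.2.2.add_odd (hb.2.odd_of_ne_two (by omega))
  have hMcard : (#M : ℝ) ≤ X := by
    have : #M ≤ X := by
      have hsub : M ⊆ Ioc Y (X + 1) := by
        intro q hq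
        rw [hMmem] at hq
        rw [mem_Ioc]
        omega
      have := card_le_card hsub
      rw [Nat.card_Ioc] at this
      omega
    exact_mod_cast this
  have hprod : (1 / 32) * ((Y / Real.log Y) * (X / Real.log X)) ≤ (#P : ℝ) * #Q := by
    calc (1 / 32) * ((Y / Real.log Y) * (X / Real.log X))
        = ((1 / 4) * (Y / Real.log Y)) * ((1 / 8) * (X / Real.log X)) := by ring
      _ ≤ _ := mul_le_mul hPlow hQlow (by positivity) (by positivity)
  set T : ℝ := (1 / 192) * (Y / (Real.log Y) ^ 2) with hT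
  have hTle : 2 * T * #M ≤ #P * #Q := by
    have h1 : 2 * T * #M ≤ 2 * T * X := by
      apply mul_le_mul_of_nonneg_left hMcard (by positivity)
    have h2 : 2 * T * X ≤ (1 / 32) * ((Y / Real.log Y) * (X / Real.log X)) := by
      have h3 : (Y : ℝ) / (Real.log Y) ^ 2 * X ≤ 3 * ((Y / Real.log Y) * (X / Real.log X)) := by
        have h4 : (X : ℝ) / Real.log Y ≤ 3 * (X / Real.log X) := by
          rw [← mul_div_assoc, div_le_div_iff₀ hlY hlX]
          calc (X : ℝ) * Real.log X ≤ X * (3 * Real.log Y) :=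
                mul_le_mul_of_nonneg_left hlogXY hX0.le
            _ = 3 * X * Real.log Y := by ring
        calc (Y : ℝ) / (Real.log Y) ^ 2 * X = (Y / Real.log Y) * (X / Real.log Y) := by
              field_simp
          _ ≤ (Y / Real.log Y) * (3 * (X / Real.log X)) := by gcongr
          _ = _ := by ring
      calc 2 * T * X = (1 / 96) * ((Y : ℝ) / (Real.log Y) ^ 2 * X) := by rw [hT]; ring
        _ ≤ (1 / 96) * (3 * ((Y / Real.log Y) * (X / Real.log X))) :=
            mul_le_mul_of_nonneg_left h3 (by norm_num)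
        _ = (1 / 32) * ((Y / Real.log Y) * (X / Real.log X)) := by ring
    exact h1.trans (h2.trans hprod)
  have hmain := many_reps P Q M hM T hTle
  -- conclude
  have hsq : (1 / 1024) * (W * X) ≤ ((#P : ℝ) * #Q) ^ 2 := by
    calc (1 / 1024) * (W * X) = ((1 / 32) * ((Y / Real.log Y) * (X / Real.log X))) ^ 2 := by
          rw [hW]; field_simp; ring
      _ ≤ _ := pow_le_pow_left₀ (by positivity) hprod 2
  have hS : (X : ℝ) ≤ (4096 * 5000000000) * #{m ∈ M | T ≤ rep P Q m} := by
    have h1 : (1 / 1024) * (W * X) ≤ 4 * #{m ∈ M | T ≤ rep P Q m} * (5000000000 * W) := by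
      calc _ ≤ _ := hsq
        _ ≤ _ := hmain
        _ ≤ _ := by
            apply mul_le_mul_of_nonneg_left hE2 (by positivity)
    have h2 : W * X ≤ W * ((4096 * 5000000000) * #{m ∈ M | T ≤ rep P Q m}) := by
      calc W * X = 1024 * ((1 / 1024) * (W * X)) := by ring
        _ ≤ 1024 * (4 * #{m ∈ M | T ≤ rep P Q m} * (5000000000 * W)) :=
            mul_le_mul_of_nonneg_left h1 (by norm_num)
        _ = _ := by ring
    exact le_of_mul_le_mul_left h2 hW0
  unfold Good
  rw [← hMdef, ← hY]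
  have hsub : #{m ∈ M | T ≤ rep P Q m} ≤ #{m ∈ M |
      (1 / (4096 * 5000000000) : ℝ) * (Y / (Real.log Y) ^ 2) ≤ primorialReps (k + 1) m} := by
    apply card_le_card
    intro m hm
    rw [mem_filter] at hm ⊢
    refine ⟨hm.1, ?_⟩
    have h1 : (1 / (4096 * 5000000000) : ℝ) * (Y / (Real.log Y) ^ 2) ≤ T := by
      rw [hT]
      apply mul_le_mul_of_nonneg_right (by norm_num) (by positivity)
    have h2 : rep P Q m ≤ primorialReps (k + 1) m := by
      unfold rep primorialReps
      apply card_le_card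
      rintro ⟨a, b⟩ hab
      rw [mem_filter, mem_product] at hab ⊢
      refine ⟨⟨hab.1.1, ?_⟩, hab.2⟩
      rw [mem_union]
      right
      have hb := hab.1.2
      simp only at hb
      rw [hQmem] at hb
      unfold primesIn primorialInterval
      rw [mem_filter, mem_Icc]
      simp only [Nat.add_sub_cancel]
      rw [← hX, ← hY]
      exact ⟨⟨by omega, by omega⟩, hb.2⟩
    have h3 : (rep P Q m : ℝ) ≤ primorialReps (k + 1) m := by exact_mod_cast h2
    exact (h1.trans hm.2).trans h3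
  have hsubR : (#{m ∈ M | T ≤ rep P Q m} : ℝ) ≤ #{m ∈ M |
      (1 / (4096 * 5000000000) : ℝ) * (Y / (Real.log Y) ^ 2) ≤ primorialReps (k + 1) m} := by
    exact_mod_cast hsub
  refine le_trans ?_ hsubR
  rw [div_mul_eq_mul_div, one_mul, div_le_iff₀ (by norm_num)]
  linarith

theorem main : ∃ c : ℝ, 0 < c ∧ ∀ n : ℕ, 1 ≤ n → Good c n := by
  obtain ⟨c, hc, h⟩ := good_upto 201
  refine ⟨min c (1 / (4096 * 5000000000)), lt_min hc (by norm_num), fun n hn => ?_⟩
  by_cases h1 : n < 201
  · exact (h n hn h1).mono (min_le_left _ _)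
  · obtain ⟨k, rfl⟩ : ∃ k, n = k + 1 := ⟨n - 1, by omega⟩
    exact (good_large k (by omega)).mono (min_le_right _ _)

end Pool.Agent.Work.MP_484fb8_nt
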